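import Pool.Agent.P.MP_3555ad_an.Plane

set_option autoImplicit false

namespace Pool.Agent.P.MP_3555ad_an

open Finset Filter Topology Metric

variable {V : Type}

/-- Abstract data of a rectilinear triangulated surface in the plane. -/
structure Mesh (c : V → ℂ) (F : V → V → V → Prop) : Prop where
  pos : ∀ {a b d}, F a b d → 0 < ori (c a) (c b) (c d)
  rot : ∀ {a b d}, F a b d → F b d a
  edge : ∀ {a b d}, F a b d → ∃ e, F b a e
  flower : ∀ v, ∃ n, 0 < n ∧ ∃ p : ℕ → V, p n = p 0 ∧ ∀ j < n, F v (p j) (p (j + 1))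
  disj : ∀ {a b d a' b' d'}, F a b d → F a' b' d' → ∀ q, q ∈ OTri (c a) (c b) (c d) →
    q ∈ OTri (c a') (c b') (c d') → ({a, b, d} : Set V) = {a', b', d'}

variable {c : V → ℂ} {F : V → V → V → Prop}

lemma Mesh.exists_face (h : Mesh c F) (v : V) : ∃ a b, F v a b := by
  obtain ⟨n, hn, p, -, hp⟩ := h.flower v
  exact ⟨_, _, hp 0 hn⟩

lemma Mesh.cover (h : Mesh c F) {a' b' d' : V} (hF : F a' b' d') {p : ℂ}
    (hp : p ∈ Tri (c a') (c b') (c d')) {Q : V → V → V → Prop}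
    (hU : ∀ᶠ q in 𝓝 p, ∃ a b d, F a b d ∧ Q a b d ∧ q ∈ Tri (c a) (c b) (c d)) :
    ∃ a b d, Q a b d ∧ ({a, b, d} : Set V) = {a', b', d'} := by
  obtain ⟨q, ⟨a, b, d, h1, h2, h3⟩, hq⟩ := approach (h.pos hF) hp hU
  obtain ⟨q', h4, h5⟩ := approach (h.pos h1) h3 ((isOpen_OTri _ _ _).mem_nhds hq)
  exact ⟨a, b, d, h2, h.disj h1 hF q' h5 h4⟩

lemma Mesh.vertex_nhds (h : Mesh c F) (v : V) :
    ∀ᶠ q in 𝓝 (c v), ∃ a b d, F a b d ∧ a = v ∧ q ∈ Tri (c a) (c b) (c d) := by
  obtain ⟨n, hn, p, hp0, hp⟩ := h.flower v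
  have ev : ∀ᶠ q in 𝓝 (c v), ∀ j ∈ range n, 0 < ori (c (p j)) (c (p (j + 1))) q := by
    refine (eventually_all_finset _).2 fun j hj => ?_
    refine (continuous_ori _ _).continuousAt.eventually (lt_mem_nhds ?_)
    show 0 < ori (c (p j)) (c (p (j + 1))) (c v)
    rw [ori_rot]; exact h.pos (hp j (mem_range.1 hj))
  filter_upwards [ev] with q hq
  by_cases hqv : q = c v
  · exact ⟨v, _, _, hp 0 hn, rfl, by rw [hqv]; exact vertex_mem_Tri (h.pos (hp 0 hn))⟩
  · obtain ⟨j, hj, h1, h2⟩ := cone_cover hqv hn (z := fun j => c (p j)) (by simp only [hp0])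
      (fun j hj => h.pos (hp j hj))
    exact ⟨v, _, _, hp j hj, rfl, h1, (hq j (mem_range.2 hj)).le, h2⟩

lemma Mesh.vertex_mem (h : Mesh c F) {a b d v : V} (hF : F a b d)
    (hv : c v ∈ Tri (c a) (c b) (c d)) : v ∈ ({a, b, d} : Set V) := by
  obtain ⟨x, y, z, rfl, h2⟩ := h.cover hF hv (h.vertex_nhds v)
  rw [← h2]; simp

lemma Mesh.inj (h : Mesh c F) : Function.Injective c := by
  intro v v' hv
  obtain ⟨x, y, hF⟩ := h.exists_face v
  have hp := h.pos hF
  have := h.vertex_mem hF (v := v') (hv ▸ vertex_mem_Tri hp)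
  rcases this with rfl | rfl | rfl
  · rfl
  · rw [hv] at hp; simp at hp
  · rw [hv] at hp; simp at hp

lemma Mesh.edge_mem (h : Mesh c F) {a b d a' b' d' : V} (hF : F a b d) (hF' : F a' b' d') {p : ℂ}
    (h2 : 0 < ori (c b) (c d) p) (h3 : 0 < ori (c d) (c a) p) (h1 : ori (c a) (c b) p = 0)
    (hp : p ∈ Tri (c a') (c b') (c d')) :
    a ∈ ({a', b', d'} : Set V) ∧ b ∈ ({a', b', d'} : Set V) := by
  obtain ⟨e, hE⟩ := h.edge hF
  have hD := h.pos hF
  have hD' := h.pos hE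
  have hb := bary hD.ne' p
  rw [h1, zero_div, zero_smul, add_zero] at hb
  have hsum : ori (c b) (c d) p / ori (c a) (c b) (c d) +
      ori (c d) (c a) p / ori (c a) (c b) (c d) = 1 := by
    field_simp; linarith [ori_sum (c a) (c b) (c d) p]
  have l1 := div_pos h2 hD
  have l2 := div_pos h3 hD
  set s := ori (c b) (c d) p / ori (c a) (c b) (c d)
  set t := ori (c d) (c a) p / ori (c a) (c b) (c d)
  have hp' : p = c a + t • (c b - c a) := by
    rw [← hb, show s = 1 - t by linarith]; module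
  have g1 : 0 < ori (c a) (c e) p := by
    rw [hp', ori_comb, ori_aba, mul_zero, zero_add, ori_rot]
    exact mul_pos l2 hD'
  have g2 : 0 < ori (c e) (c b) p := by
    rw [hp', ori_comb, ori_abb, mul_zero, add_zero, ← ori_rot]
    exact mul_pos (by linarith) hD'
  have ev : ∀ᶠ q in 𝓝 p, 0 < ori (c b) (c d) q ∧ 0 < ori (c d) (c a) q ∧
      0 < ori (c a) (c e) q ∧ 0 < ori (c e) (c b) q :=
    ((continuous_ori _ _).continuousAt.eventually (lt_mem_nhds h2)).and
      (((continuous_ori _ _).continuousAt.eventually (lt_mem_nhds h3)).and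
        (((continuous_ori _ _).continuousAt.eventually (lt_mem_nhds g1)).and
          ((continuous_ori _ _).continuousAt.eventually (lt_mem_nhds g2))))
  obtain ⟨x, y, z, h4, h5⟩ := h.cover hF' hp
    (Q := fun x y z => a ∈ ({x, y, z} : Set V) ∧ b ∈ ({x, y, z} : Set V)) (by
      filter_upwards [ev] with q ⟨q1, q2, q3, q4⟩
      rcases le_total 0 (ori (c a) (c b) q) with h6 | h6
      · exact ⟨a, b, d, hF, ⟨by simp, by simp⟩, h6, q1.le, q2.le⟩
      · exact ⟨b, a, e, hE, ⟨by simp, by simp⟩, by rw [ori_swap]; linarith, q3.le, q4.le⟩)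
  rwa [h5] at h4

/-- Two closed triangles meet in the hull of their common vertices. -/
lemma Mesh.inter (h : Mesh c F) {a b d a' b' d' : V} (hF : F a b d) (hF' : F a' b' d') {p : ℂ}
    (hp : p ∈ Tri (c a) (c b) (c d)) (hp' : p ∈ Tri (c a') (c b') (c d')) :
    p ∈ convexHull ℝ (c '' (({a, b, d} : Set V) ∩ {a', b', d'})) := by
  have vert : ∀ {a b d : V}, F a b d → ori (c a) (c b) p = 0 → ori (c d) (c a) p = 0 →
      ∀ S : Set V, a ∈ S → p ∈ convexHull ℝ (c '' (S ∩ {a', b', d'})) := by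
    intro a b d hF h1 h2 S hS
    have := eq_vertex_of_ori (h.pos hF) h1 h2
    subst this
    exact subset_convexHull _ _ ⟨a, ⟨hS, h.vertex_mem hF' hp'⟩, rfl⟩
  have edg : ∀ {a b d : V}, F a b d → ori (c a) (c b) p = 0 → 0 < ori (c b) (c d) p →
      0 < ori (c d) (c a) p → ∀ S : Set V, a ∈ S → b ∈ S →
      p ∈ convexHull ℝ (c '' (S ∩ {a', b', d'})) := by
    intro a b d hF h1 h2 h3 S ha hb
    obtain ⟨h4, h5⟩ := h.edge_mem hF hF' h2 h3 h1 hp'
    exact segment_subset_convexHull (Set.mem_image_of_mem c (Set.mem_inter ha h4))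
      (Set.mem_image_of_mem c (Set.mem_inter hb h5))
      (mem_segment_of_ori (h.pos hF) ⟨h1.ge, h2.le, h3.le⟩ h1)
  obtain ⟨p1, p2, p3⟩ := hp
  rcases p1.eq_or_lt with p1 | p1 <;> rcases p2.eq_or_lt with p2 | p2 <;>
    rcases p3.eq_or_lt with p3 | p3
  · exact vert hF p1.symm p3.symm _ (by simp)
  · exact vert (h.rot hF) p2.symm p1.symm _ (by simp)
  · exact vert hF p1.symm p3.symm _ (by simp)
  · exact edg hF p1.symm p2 p3 _ (by simp) (by simp)
  · exact vert (h.rot (h.rot hF)) p3.symm p2.symm _ (by simp)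
  · exact edg (h.rot hF) p2.symm p3 p1 _ (by simp) (by simp)
  · exact edg (h.rot (h.rot hF)) p3.symm p1 p2 _ (by simp) (by simp)
  · obtain ⟨q, h4, h5⟩ := approach (h.pos hF') hp'
      ((isOpen_OTri (c a) (c b) (c d)).mem_nhds ⟨p1, p2, p3⟩)
    rw [← h.disj hF hF' q h4 h5, Set.inter_self, Set.image_insert_eq, Set.image_insert_eq,
      Set.image_singleton, convexHull_eq_Tri (h.pos hF)]
    exact ⟨p1.le, p2.le, p3.le⟩

lemma Mesh.face_of_mem (h : Mesh c F) {a b d x y z : V} (hF : F a b d)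
    (hx : x ∈ ({a, b, d} : Set V)) (hy : y ∈ ({a, b, d} : Set V)) (hz : z ∈ ({a, b, d} : Set V))
    (ho : 0 < ori (c x) (c y) (c z)) : F x y z := by
  have hp := h.pos hF
  have r1 := h.rot hF
  have r2 := h.rot r1
  rcases hx with rfl | rfl | rfl <;> rcases hy with rfl | rfl | rfl <;>
    rcases hz with rfl | rfl | rfl <;>
    first
      | assumption
      | (exfalso; simp at ho; done)
      | (exfalso; unfold ori at hp ho; linarith)

lemma Mesh.edge_of_mem (h : Mesh c F) {a b d x y : V} (hF : F a b d)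
    (hx : x ∈ ({a, b, d} : Set V)) (hy : y ∈ ({a, b, d} : Set V)) (hne : x ≠ y) :
    ∃ w, F x y w := by
  have r1 := h.rot hF
  have r2 := h.rot r1
  rcases hx with rfl | rfl | rfl <;> rcases hy with rfl | rfl | rfl <;>
    first
      | exact absurd rfl hne
      | exact ⟨_, hF⟩
      | exact ⟨_, r1⟩
      | exact ⟨_, r2⟩
      | exact h.edge hF
      | exact h.edge r1
      | exact h.edge r2

/-- The simplicial complex of a mesh. -/
def Mesh.complex (h : Mesh c F) : Geometry.SimplicialComplex ℝ ℂ where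
  faces := {s | s.Nonempty ∧ ∃ a b d, F a b d ∧ (s : Set ℂ) ⊆ {c a, c b, c d}}
  isRelLowerSet_faces := by
    rintro s ⟨hs, a, b, d, hF, hsub⟩
    exact ⟨hs, fun t ht htn => ⟨htn, a, b, d, hF, (Finset.coe_subset.2 ht).trans hsub⟩⟩
  indep := by
    rintro s ⟨-, a, b, d, hF, hsub⟩
    exact (affineIndependent_of_ori (h.pos hF).ne').mono hsub
  inter_subset_convexHull := by
    classical
    rintro s t ⟨-, a, b, d, hF, hs⟩ ⟨-, a', b', d', hF', ht⟩ p ⟨hp1, hp2⟩
    have i1 := affineIndependent_of_ori (h.pos hF).ne'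
    have i2 := affineIndependent_of_ori (h.pos hF').ne'
    let T : Finset ℂ := {c a, c b, c d}
    let T' : Finset ℂ := {c a', c b', c d'}
    have eT : (T : Set ℂ) = {c a, c b, c d} := by simp [T]
    have eT' : (T' : Set ℂ) = {c a', c b', c d'} := by simp [T']
    rw [← eT] at i1 hs
    rw [← eT'] at i2 ht
    have h1 : p ∈ Tri (c a) (c b) (c d) := by
      rw [← convexHull_eq_Tri (h.pos hF), ← eT]; exact convexHull_mono hs hp1
    have h2 : p ∈ Tri (c a') (c b') (c d') := by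
      rw [← convexHull_eq_Tri (h.pos hF'), ← eT']; exact convexHull_mono ht hp2
    have h3 : p ∈ convexHull ℝ ((T ∩ T' : Finset ℂ) : Set ℂ) := by
      refine convexHull_mono ?_ (h.inter hF hF' h1 h2)
      rintro _ ⟨v, ⟨v1, v2⟩, rfl⟩
      rw [coe_inter, eT, eT']
      constructor
      · rcases v1 with rfl | rfl | rfl <;> simp
      · rcases v2 with rfl | rfl | rfl <;> simp
    have h4 := AffineIndependent.convexHull_inter (s := T) i1 (Finset.coe_subset.1 hs)
      (inter_subset_left (s₂ := T'))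
    have h5 : p ∈ convexHull ℝ ((s ∩ (T ∩ T') : Finset ℂ) : Set ℂ) := by
      rw [coe_inter, h4]; exact ⟨hp1, h3⟩
    have h6 := AffineIndependent.convexHull_inter (s := T') i2 (t₁ := s ∩ (T ∩ T'))
      (inter_subset_right.trans inter_subset_right) (Finset.coe_subset.1 ht)
    have h7 : p ∈ convexHull ℝ (((s ∩ (T ∩ T') : Finset ℂ) : Set ℂ) ∩ t) := by
      rw [h6]; exact ⟨h5, hp2⟩
    refine convexHull_mono ?_ h7
    rintro x ⟨x1, x2⟩
    exact ⟨(mem_inter.1 x1).1, x2⟩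

lemma Mesh.mem_faces (h : Mesh c F) {s : Finset ℂ} : s ∈ h.complex.faces ↔
    s.Nonempty ∧ ∃ a b d, F a b d ∧ (s : Set ℂ) ⊆ {c a, c b, c d} := Iff.rfl

lemma Mesh.vertices (h : Mesh c F) : h.complex.vertices = Set.range c := by
  ext x
  rw [Geometry.SimplicialComplex.mem_vertices, h.mem_faces]
  constructor
  · rintro ⟨-, a, b, d, -, hsub⟩
    rcases hsub (by simp : x ∈ (({x} : Finset ℂ) : Set ℂ)) with rfl | rfl | rfl <;> simp
  · rintro ⟨v, rfl⟩
    obtain ⟨a, b, hF⟩ := h.exists_face v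
    exact ⟨by simp, v, a, b, hF, by simp⟩

lemma Mesh.mem_space (h : Mesh c F) {p : ℂ} : p ∈ h.complex.space ↔
    ∃ a b d, F a b d ∧ p ∈ Tri (c a) (c b) (c d) := by
  classical
  rw [Geometry.SimplicialComplex.mem_space_iff]
  constructor
  · rintro ⟨s, ⟨-, a, b, d, hF, hsub⟩, hp⟩
    exact ⟨a, b, d, hF, by rw [← convexHull_eq_Tri (h.pos hF)]; exact convexHull_mono hsub hp⟩
  · rintro ⟨a, b, d, hF, hp⟩
    refine ⟨{c a, c b, c d}, ⟨by simp, a, b, d, hF, by simp⟩, ?_⟩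
    rw [← convexHull_eq_Tri (h.pos hF)] at hp
    simpa using hp

lemma Mesh.pair_face (h : Mesh c F) [DecidableEq ℂ] {u v : ℂ} (hne : u ≠ v)
    (hs : ({u, v} : Finset ℂ) ∈ h.complex.faces) : ∃ x y w, F x y w ∧ u = c x ∧ v = c y := by
  obtain ⟨-, a, b, d, hF, hsub⟩ := hs
  have e : ({c a, c b, c d} : Set ℂ) = c '' {a, b, d} := by
    rw [Set.image_insert_eq, Set.image_insert_eq, Set.image_singleton]
  rw [e] at hsub
  obtain ⟨x, hx, rfl⟩ := hsub (by simp : u ∈ (({u, v} : Finset ℂ) : Set ℂ))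
  obtain ⟨y, hy, rfl⟩ := hsub (by simp : v ∈ (({c x, v} : Finset ℂ) : Set ℂ))
  obtain ⟨w, hw⟩ := h.edge_of_mem hF hx hy (fun e => hne (by rw [e]))
  exact ⟨x, y, w, hw, rfl, rfl⟩

lemma Mesh.triple_face (h : Mesh c F) [DecidableEq ℂ] {u v w : ℂ} (ho : 0 < ori u v w)
    (hs : ({u, v, w} : Finset ℂ) ∈ h.complex.faces) :
    ∃ x y z, F x y z ∧ u = c x ∧ v = c y ∧ w = c z := by
  obtain ⟨-, a, b, d, hF, hsub⟩ := hs
  have e : ({c a, c b, c d} : Set ℂ) = c '' {a, b, d} := by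
    rw [Set.image_insert_eq, Set.image_insert_eq, Set.image_singleton]
  rw [e] at hsub
  obtain ⟨x, hx, rfl⟩ := hsub (by simp : u ∈ (({u, v, w} : Finset ℂ) : Set ℂ))
  obtain ⟨y, hy, rfl⟩ := hsub (by simp : v ∈ (({c x, v, w} : Finset ℂ) : Set ℂ))
  obtain ⟨z, hz, rfl⟩ := hsub (by simp : w ∈ (({c x, c y, w} : Finset ℂ) : Set ℂ))
  exact ⟨x, y, z, h.face_of_mem hF hx hy hz ho, rfl, rfl, rfl⟩

lemma Mesh.face_mem (h : Mesh c F) [DecidableEq ℂ] {a b d : V} (hF : F a b d) :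
    ({c a, c b, c d} : Finset ℂ) ∈ h.complex.faces := ⟨by simp, a, b, d, hF, by simp⟩

section discs

variable {r : V → ℝ}

lemma Mesh.ball_star (h : Mesh c F) (ht : ∀ {a b d}, F a b d → ‖c a - c b‖ = r a + r b) {v : V}
    {q : ℂ} (hq : q ∈ ball (c v) (r v)) : ∃ a b, F v a b ∧ q ∈ Tri (c v) (c a) (c b) := by
  obtain ⟨n, hn, p, hp0, hp⟩ := h.flower v
  by_cases hqv : q = c v
  · exact ⟨_, _, hp 0 hn, by rw [hqv]; exact vertex_mem_Tri (h.pos (hp 0 hn))⟩
  obtain ⟨j, hj, h1, h2⟩ := cone_cover hqv hn (z := fun j => c (p j)) (by simp only [hp0])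
    (fun j hj => h.pos (hp j hj))
  have hF := hp j hj
  refine ⟨_, _, hF, h1, ?_, h2⟩
  by_contra hneg
  push Not at hneg
  have hD := h.pos hF
  set a := c (p j)
  set b := c (p (j + 1))
  have hD' : 0 < ori a b (c v) := by rw [ori_rot]; exact hD
  set t : ℝ := ori a b (c v) / (ori a b (c v) - ori a b q) with htdef
  have hden : 0 < ori a b (c v) - ori a b q := by linarith
  have ht0 : 0 < t := div_pos hD' hden
  have ht1 : t < 1 := by rw [htdef, div_lt_one hden]; linarith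
  have z0 : ori a b (c v + t • (q - c v)) = 0 := by
    rw [ori_comb, htdef]; field_simp; ring
  have z1 : c v + t • (q - c v) ∈ Tri a b (c v) := by
    refine ⟨z0.ge, ?_, ?_⟩ <;> rw [ori_comb]
    · rw [ori_abb]; nlinarith
    · rw [ori_aba]; nlinarith
  have z2 := seg_far (ht hF) (ht (h.rot hF)) (ht (h.rot (h.rot hF))) (mem_segment_of_ori hD' z1 z0)
  rw [add_sub_cancel_left, norm_smul, Real.norm_eq_abs, abs_of_pos ht0] at z2
  rw [mem_ball, dist_eq_norm] at hq
  nlinarith [norm_nonneg (q - c v)]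

lemma Mesh.disjoint_balls (h : Mesh c F) (ht : ∀ {a b d}, F a b d → ‖c a - c b‖ = r a + r b)
    {u v : V} (hne : u ≠ v) : Disjoint (ball (c u) (r u)) (ball (c v) (r v)) := by
  rw [Set.disjoint_left]
  intro q hu hv
  obtain ⟨a, b, hF, h1⟩ := h.ball_star ht hu
  obtain ⟨a', b', hF', h2⟩ := h.ball_star ht hv
  rw [mem_ball, dist_eq_norm] at hu hv
  by_cases hmem : u ∈ ({v, a', b'} : Set V)
  · obtain ⟨w, hw⟩ := h.edge_of_mem hF' hmem (by simp : v ∈ _) hne
    have h3 := ht hw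
    have h4 := norm_sub_le_norm_sub_add_norm_sub (c u) q (c v)
    rw [norm_sub_rev (c u) q] at h4
    linarith
  · have h3 := h.inter hF hF' h1 h2
    have h4 : q ∈ segment ℝ (c a) (c b) := by
      rw [← convexHull_pair]
      refine convexHull_mono ?_ h3
      rintro _ ⟨x, ⟨x1, x2⟩, rfl⟩
      rcases x1 with rfl | rfl | rfl
      · exact absurd x2 hmem
      · simp
      · simp
    have := seg_far (ht hF) (ht (h.rot hF)) (ht (h.rot (h.rot hF))) h4
    linarith

end discs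

end Pool.Agent.P.MP_3555ad_an
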