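import Pool.Agent.P.MP_3555ad_an.Tiling

set_option autoImplicit false

namespace Pool.Agent.P.MP_3555ad_an

open Real Finset Filter Topology

lemma third_euc (x y : ℂ × ℝ) (t : ℝ) : ∃ z : ℂ × ℝ, 0 < x.2 → 0 < y.2 → ‖x.1 - y.1‖ = x.2 + y.2 →
    0 < t → EFace x y z ∧ z.2 = t := by
  obtain ⟨c, ρ⟩ := x
  obtain ⟨e, α⟩ := y
  obtain ⟨p, hp⟩ : ∃ p : ℝ, p = ((ρ + α) ^ 2 + (ρ + t) ^ 2 - (α + t) ^ 2) / (2 * (ρ + α) ^ 2) :=
    ⟨_, rfl⟩
  obtain ⟨q, hq⟩ : ∃ q : ℝ, q = √(4 * ρ * α * t * (ρ + α + t) / (ρ + α) ^ 4) := ⟨_, rfl⟩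
  refine ⟨(c + (e - c) * ⟨p, q⟩, t), fun h1 h2 h3 h4 => ⟨⟨h3, ?_, ?_, ?_⟩, rfl⟩⟩ <;>
    simp only at h1 h2 h3 ⊢
  all_goals
    have q0 : 0 < q := by rw [hq]; positivity
    have q2 : q ^ 2 = 4 * ρ * α * t * (ρ + α + t) / (ρ + α) ^ 4 := by
      rw [hq]; exact Real.sq_sqrt (by positivity)
    have n2 : ‖e - c‖ ^ 2 = (ρ + α) ^ 2 := by rw [norm_sub_rev, h3]
  · rw [← sq_eq_sq₀ (norm_nonneg _) (by positivity),
      show e - (c + (e - c) * ⟨p, q⟩) = (e - c) * ⟨1 - p, -q⟩ by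
        apply Complex.ext <;> simp <;> ring,
      norm_mul, mul_pow, n2, ← ip_self]
    simp only [ip]
    rw [← sq, ← sq, neg_sq, q2, hp]; field_simp; ring
  · rw [← sq_eq_sq₀ (norm_nonneg _) (by positivity), add_sub_cancel_left, norm_mul, mul_pow, n2,
      ← ip_self]
    simp only [ip]
    rw [← sq, ← sq, q2, hp]; field_simp; ring
  · have : ori c e (c + (e - c) * ⟨p, q⟩) = ip (e - c) (e - c) * q := by simp [ori, ip]; ring
    rw [this, ip_self, n2]; positivity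

lemma ang_cont2 {η : ℝ} (h : 1 ≤ η) {f g : ℝ → ℝ} (hf : Continuous f) (hg : Continuous g)
    (f1 : ∀ y, 1 ≤ y → 1 ≤ f y) (g1 : ∀ y, 1 ≤ y → 1 ≤ g y) :
    ContinuousOn (fun y => ang η (f y) (g y)) (Set.Ici 1) := by
  unfold ang
  refine continuousOn_const.mul (Real.continuous_arcsin.comp_continuousOn
    (Real.continuous_sqrt.comp_continuousOn (ContinuousOn.div (by fun_prop) (by fun_prop) ?_)))
  intro t ht
  have := f1 t ht
  have := g1 t ht
  positivity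

lemma ang_tendsto (η : ℝ) : Tendsto (fun y => ang η 1 y) atTop (𝓝 0) := by
  have h1 : Tendsto (fun y : ℝ => (η ^ 2 - 1) / ((η + 1) * (η + y))) atTop (𝓝 0) := by
    simp only [← div_div]
    exact tendsto_const_nhds.div_atTop (tendsto_atTop_add_const_left _ _ tendsto_id)
  have h2 : Continuous fun q : ℝ => 2 * arcsin √q :=
    continuous_const.mul (Real.continuous_arcsin.comp Real.continuous_sqrt)
  have := (h2.tendsto 0).comp h1
  simpa [ang, Function.comp_def] using this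

/-- A Steiner type chain between two prescribed petals. -/
lemma steiner {v a b : Cir} (hv : Ok v) (h1 : 1 < v.η) (ha : Ok a) (hb : Ok b) (ta : Tang v a)
    (tb : Tang v b) {n : ℕ} (hn : 2 ≤ n) (big : 10 * (v.η + 1) ≤ (n - 2) ^ 2 * (v.η - 1)) :
    ∃ s : ℕ → Cir, s 0 = a ∧ s n = b ∧ ∀ j, Face v (s j) (s (j + 1)) := by
  have hp := Real.pi_pos
  obtain ⟨x, x1, x2, hx⟩ := exists_ex (view_tang hv h1 ha ta).2 (view_tang hv h1 hb tb).2
  obtain ⟨θ, θ1, θ2, hθ⟩ : ∃ θ, 0 < θ ∧ θ ≤ 2 * π ∧ dir v b = dir v a * ex θ := by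
    rcases le_or_gt x 0 with h | h
    · exact ⟨x + 2 * π, by linarith, by linarith, by rw [ex_add_two_pi, hx]⟩
    · exact ⟨x, h, by linarith, hx⟩
  let Y : ℝ → ℕ → ℝ := fun y j => if j = 0 then a.η else if j < n then y else b.η
  have Y1 : ∀ y, 1 ≤ y → ∀ j, 1 ≤ Y y j := by
    intro y hy j
    simp only [Y]
    split_ifs
    exacts [ha.one, hy, hb.one]
  have Yc : ∀ j, Continuous fun y => Y y j := by
    intro j
    simp only [Y]
    split_ifs
    exacts [continuous_const, continuous_id, continuous_const]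
  let G : ℝ → ℝ := fun y => ∑ j ∈ range n, ang v.η (Y y j) (Y y (j + 1))
  have Gc : ContinuousOn G (Set.Ici 1) := continuousOn_finsetSum _ fun j _ =>
    ang_cont2 h1.le (Yc j) (Yc (j + 1)) (fun y hy => Y1 y hy j) (fun y hy => Y1 y hy (j + 1))
  have G1 : θ ≤ G 1 := by
    have e1 : ∑ j ∈ Ico 1 (n - 1), ang v.η (Y 1 j) (Y 1 (j + 1)) ≤ G 1 :=
      sum_le_sum_of_subset_of_nonneg (fun j hj => by
        rw [mem_Ico] at hj; rw [mem_range]; omega) fun j _ _ => ang_nonneg _ _ _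
    have e2 : ∑ j ∈ Ico 1 (n - 1), ang v.η (Y 1 j) (Y 1 (j + 1)) = (n - 2) * ang v.η 1 1 := by
      rw [sum_congr rfl (g := fun _ => ang v.η 1 1) fun j hj => by
        rw [mem_Ico] at hj
        simp only [Y]
        rw [if_neg (by omega), if_pos (by omega), if_neg (by omega), if_pos (by omega)]]
      rw [sum_const, Nat.card_Ico, nsmul_eq_mul, Nat.sub_sub, Nat.cast_sub hn]; norm_num
    have e3 := Real.sin_le (x := ang v.η 1 1 / 2) (by linarith [ang_nonneg v.η 1 1])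
    rw [sin_half_ang h1.le le_rfl le_rfl] at e3
    have n2 : (0 : ℝ) ≤ n - 2 := by
      have : (2 : ℝ) ≤ n := by exact_mod_cast hn
      linarith
    have e4 : π ≤ (n - 2) * √((v.η ^ 2 - 1) / ((v.η + 1) * (v.η + 1))) := by
      rw [← Real.sqrt_sq n2, ← Real.sqrt_mul (sq_nonneg _)]
      apply Real.le_sqrt_of_sq_le
      rw [show (v.η ^ 2 - 1) / ((v.η + 1) * (v.η + 1)) = (v.η - 1) / (v.η + 1) by
        field_simp; ring, ← mul_div_assoc, le_div_iff₀ (by linarith)]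
      have : π ^ 2 ≤ 10 := by nlinarith [Real.pi_lt_d2]
      nlinarith
    nlinarith
  obtain ⟨y0, y1, y2⟩ : ∃ y, 1 ≤ y ∧ G y ≤ θ := by
    have t1 : Tendsto (fun y => n * ang v.η 1 y) atTop (𝓝 0) := by
      simpa using (ang_tendsto v.η).const_mul (n : ℝ)
    obtain ⟨y, e1, e2⟩ := ((t1.eventually (gt_mem_nhds θ1)).and (eventually_ge_atTop 1)).exists
    refine ⟨y, e2, le_trans ?_ e1.le⟩
    have := sum_le_card_nsmul (range n) (fun j => ang v.η (Y y j) (Y y (j + 1))) (ang v.η 1 y)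
      (fun j hj => by
        rw [mem_range] at hj
        by_cases h0 : j = 0
        · refine ang_anti h1.le le_rfl e2 (Y1 y e2 _) (le_of_eq ?_)
          simp only [Y]; rw [if_neg (by omega), if_pos (by omega)]
        · rw [ang_comm]
          refine ang_anti h1.le le_rfl e2 (Y1 y e2 _) (le_of_eq ?_)
          simp only [Y]; rw [if_neg h0, if_pos hj])
    rwa [card_range, nsmul_eq_mul] at this
  obtain ⟨y, ⟨z1, -⟩, z2⟩ := intermediate_value_Icc' y1 (Gc.mono Set.Icc_subset_Ici_self) ⟨y2, G1⟩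
  have s0 : a.η = Y y 0 := by simp [Y]
  refine ⟨chain v a (Y y), rfl, ?_, chain_face hv h1 ha ta s0 (Y1 y z1)⟩
  obtain ⟨c1, c2, c3, c4⟩ := chain_spec hv h1 ha ta s0 (Y1 y z1) n
  have z3 : ∑ j ∈ range n, ang v.η (Y y j) (Y y (j + 1)) = θ := z2
  rw [z3, ← hθ] at c4
  have c5 : Y y n = b.η := by simp only [Y]; rw [if_neg (by omega), if_neg (by omega)]
  rw [eq_petal hv h1 c1 c2, c3, c4, c5, ← eq_petal hv h1 hb tb]

/-- Size and position bounds for a circle. -/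
def Box (R ρ : ℝ) (x : ℂ × ℝ) : Prop := 0 < x.2 ∧ x.2 ≤ ρ ∧ ‖x.1‖ + x.2 ≤ R

/-- A chain of `n` faces around `v`. -/
def Ch (v : ℂ × ℝ) (Q : ℂ × ℝ → Prop) (s : ℕ → ℂ × ℝ) (n : ℕ) : Prop :=
  (∀ j < n, EFace v (s j) (s (j + 1))) ∧ ∀ j ≤ n, Q (s j)

lemma Ch.concat {v : ℂ × ℝ} {Q : ℂ × ℝ → Prop} {s s' : ℕ → ℂ × ℝ} {n n' : ℕ} (h : Ch v Q s n)
    (h' : Ch v Q s' n') (e : s n = s' 0) :
    ∃ u, Ch v Q u (n + n') ∧ (∀ j ≤ n, u j = s j) ∧ u (n + n') = s' n' := by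
  let u : ℕ → ℂ × ℝ := fun j => if j ≤ n then s j else s' (j - n)
  have u1 : ∀ j ≤ n, u j = s j := fun j hj => if_pos hj
  have u2 : ∀ j, u (n + j) = s' j := by
    intro j
    rcases Nat.eq_zero_or_pos j with rfl | hj
    · rw [add_zero, u1 n le_rfl, e]
    · simp only [u]; rw [if_neg (by omega), Nat.add_sub_cancel_left]
  refine ⟨u, ⟨fun j hj => ?_, fun j hj => ?_⟩, u1, u2 n'⟩
  · rcases lt_or_ge j n with h1 | h1
    · rw [u1 j h1.le, u1 (j + 1) h1]; exact h.1 j h1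
    · obtain ⟨i, rfl⟩ := Nat.exists_eq_add_of_le h1
      rw [add_assoc, u2, u2]; exact h'.1 i (by omega)
  · rcases le_or_gt j n with h1 | h1
    · rw [u1 j h1]; exact h.2 j h1
    · obtain ⟨i, rfl⟩ := Nat.exists_eq_add_of_le h1.le
      rw [u2]; exact h'.2 i (by omega)

lemma Ch.single {v x y : ℂ × ℝ} {Q : ℂ × ℝ → Prop} (h : EFace v x y) (hx : Q x) (hy : Q y) :
    ∃ s, Ch v Q s 1 ∧ s 0 = x ∧ s 1 = y :=
  ⟨fun j => if j = 0 then x else y, ⟨fun j hj => by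
    obtain rfl : j = 0 := by omega
    simpa using h, fun j _ => by dsimp only; split_ifs; exacts [hx, hy]⟩, by simp, by simp⟩

lemma exists_unit (c : ℂ) : ∃ u : ℂ, ‖u‖ = 1 ∧ c = ‖c‖ • u :=
  ⟨ex _, norm_ex _, pol_step (z := 1) (x := 0) (by simp) one_ne_zero c⟩

lemma EFace.scale {x y z : ℂ × ℝ} (h : EFace x y z) (o : ℂ) {S : ℝ} (hS : 0 < S) :
    EFace (o + S • x.1, S * x.2) (o + S • y.1, S * y.2) (o + S • z.1, S * z.2) := by
  have key : ∀ a b : ℂ, ‖o + S • a - (o + S • b)‖ = S * ‖a - b‖ := by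
    intro a b
    rw [add_sub_add_left_eq_sub, ← smul_sub, norm_smul, Real.norm_eq_abs, abs_of_pos hS]
  refine ⟨?_, ?_, ?_, ?_⟩ <;> simp only
  · rw [key, h.t1, mul_add]
  · rw [key, h.t2, mul_add]
  · rw [key, h.t3, mul_add]
  · have : ori (o + S • x.1) (o + S • y.1) (o + S • z.1) = S ^ 2 * ori x.1 y.1 z.1 := by
      simp [ori]; ring
    rw [this]; exact mul_pos (pow_pos hS 2) h.pos

lemma fill {R ρb g t : ℝ} {v x y : ℂ × ℝ} (hv : Box R ρb v) (hR : 3 * ρb ≤ R) (t0 : 0 < t)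
    (hg : 2 * t ≤ g) (x2 : x.2 = t) (y2 : y.2 = t) (tx : ‖v.1 - x.1‖ = v.2 + x.2)
    (ty : ‖v.1 - y.1‖ = v.2 + y.2) {n : ℕ} (hn : 2 ≤ n)
    (big : 10 * (4 * v.2 + g) ≤ (n - 2) ^ 2 * g) :
    ∃ s, Ch v (Box (R + g) (ρb + g)) s n ∧ s 0 = x ∧ s n = y := by
  obtain ⟨c, ρ⟩ := v
  obtain ⟨ρ0, ρ1, ρ2⟩ := hv
  simp only at ρ0 ρ1 ρ2 tx ty big
  obtain ⟨u, u1, hu⟩ := exists_unit c
  obtain ⟨S, hS⟩ : ∃ S, S = 2 * ρ + g := ⟨_, rfl⟩
  have S0 : 0 < S := by linarith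
  obtain ⟨o, ho⟩ : ∃ o, o = c - ρ • u := ⟨_, rfl⟩
  have co : ‖c - o‖ = ρ := by
    rw [ho, sub_sub_cancel, norm_smul, u1, Real.norm_eq_abs, abs_of_pos ρ0, mul_one]
  have no : ‖o‖ + 2 * ρ ≤ R := by
    have : o = (‖c‖ - ρ) • u := by rw [ho, sub_smul, ← hu]
    rw [this, norm_smul, u1, Real.norm_eq_abs, mul_one]
    rcases abs_cases (‖c‖ - ρ) with h | h <;> linarith [norm_nonneg c]
  let T : ℂ × ℝ → Cir := fun w => ofEuc (S⁻¹ • (w.1 - o)) (w.2 / S)
  have nT : ∀ w : ℂ, ‖S⁻¹ • w‖ = ‖w‖ / S := fun w => by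
    rw [norm_smul, Real.norm_eq_abs, abs_of_pos (inv_pos.2 S0)]; ring
  have okT : ∀ w : ℂ × ℝ, 0 < w.2 → w.2 < S → ‖w.1 - o‖ + w.2 ≤ S → Ok (T w) := by
    intro w w0 w1 w2
    refine ofEuc_ok (div_pos w0 S0) ?_ ((div_lt_one S0).2 w1)
    rw [nT, ← add_div, div_le_one S0]; exact w2
  have back : ∀ w : ℂ × ℝ, 0 < w.2 → (o + S • cen (T w), S * rad (T w)) = w := by
    intro w w0
    simp only [T]
    rw [cen_ofEuc _ (div_pos w0 S0), rad_ofEuc _ (div_pos w0 S0), smul_smul,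
      mul_inv_cancel₀ S0.ne', one_smul, add_sub_cancel, mul_div_cancel₀ _ S0.ne']
  have ov : Ok (T (c, ρ)) := okT _ ρ0 (by simp only; linarith) (by simp only; linarith)
  have ev : (T (c, ρ)).η = 1 + g / (2 * ρ) := by
    simp only [T, ofEuc]
    rw [nT, co, hS]; field_simp; ring
  have ow : ∀ w : ℂ × ℝ, w.2 = t → ‖c - w.1‖ = ρ + w.2 → Ok (T w) ∧ Tang (T (c, ρ)) (T w) := by
    intro w w1 w2
    have w0 : 0 < w.2 := by linarith
    have h3 := norm_sub_le_norm_sub_add_norm_sub w.1 c o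
    rw [norm_sub_rev w.1 c] at h3
    have o1 := okT w w0 (by linarith) (by linarith)
    refine ⟨o1, (tang_iff ov o1).2 ?_⟩
    simp only [T]
    rw [cen_ofEuc _ (div_pos w0 S0), rad_ofEuc _ (div_pos w0 S0), cen_ofEuc _ (div_pos ρ0 S0),
      rad_ofEuc _ (div_pos ρ0 S0), ← smul_sub, nT, sub_sub_sub_cancel_right, w2, add_div]
  have g0 : 0 < g := by linarith
  obtain ⟨s, s0, sn, hs⟩ := steiner ov (by rw [ev]; linarith [div_pos g0 (mul_pos two_pos ρ0)])
    (ow x x2 tx).1 (ow y y2 ty).1 (ow x x2 tx).2 (ow y y2 ty).2 hn (by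
      rw [ev, add_sub_cancel_left, ← mul_div_assoc, le_div_iff₀ (by positivity)]
      refine le_trans (le_of_eq ?_) big
      field_simp; ring)
  have hf : ∀ j, EFace (c, ρ) (o + S • cen (s j), S * rad (s j))
      (o + S • cen (s (j + 1)), S * rad (s (j + 1))) := by
    intro j
    have := (hs j).eface.scale o S0
    simp only at this
    rwa [back (c, ρ) ρ0] at this
  refine ⟨fun j => (o + S • cen (s j), S * rad (s j)), ⟨fun j _ => hf j, fun j _ => ?_⟩,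
    by simp only [s0]; exact back x (by linarith), by simp only [sn]; exact back y (by linarith)⟩
  have o1 := (hs j).ob
  have i1 : S * (‖cen (s j)‖ + rad (s j)) ≤ S * 1 := mul_le_mul_of_nonneg_left o1.inside S0.le
  have i2 : ‖S • cen (s j)‖ = S * ‖cen (s j)‖ := by
    rw [norm_smul, Real.norm_eq_abs, abs_of_pos S0]
  have i3 := (hf j).t1
  have i4 := norm_sub_le (c - o) (S • cen (s j))
  have i5 := norm_add_le o (S • cen (s j))
  simp only at i3
  rw [← sub_sub] at i3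
  exact ⟨mul_pos S0 o1.rad_pos, by simp only; linarith, by simp only; linarith⟩

/-- The room gained at step `k`. -/
noncomputable def gap (k : ℕ) : ℝ := 1 / ((k + 1) * (k + 2))
/-- Radius of the disc that contains layer `k`. -/
noncomputable def RR (k : ℕ) : ℝ := 20 - 1 / (k + 1)
/-- Bound for the radii in layer `k`. -/
noncomputable def rr (k : ℕ) : ℝ := 4 - 1 / (k + 1)

lemma gap_pos (k : ℕ) : 0 < gap k := by unfold gap; positivity
lemma gap_le (k : ℕ) : gap k ≤ 1 := by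
  unfold gap
  rw [div_le_one (by positivity)]
  nlinarith [(Nat.cast_nonneg k : (0 : ℝ) ≤ k)]
lemma RR_succ (k : ℕ) : RR (k + 1) = RR k + gap k := by
  unfold RR gap; push_cast; field_simp; ring
lemma rr_succ (k : ℕ) : rr (k + 1) = rr k + gap k := by
  unfold rr gap; push_cast; field_simp; ring
lemma inv_bd (k : ℕ) : 0 < 1 / ((k : ℝ) + 1) ∧ 1 / ((k : ℝ) + 1) ≤ 1 :=
  ⟨by positivity, by
    rw [div_le_one (by positivity)]; linarith [(Nat.cast_nonneg k : (0 : ℝ) ≤ k)]⟩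

lemma kids_euc (k : ℕ) (v x y : ℂ × ℝ) (fl : Prop) : ∃ s : ℕ → ℂ × ℝ, Box (RR k) (rr k) v →
    x.2 = gap k / 2 → y.2 = gap k / 2 → ‖v.1 - x.1‖ = v.2 + x.2 → ‖v.1 - y.1‖ = v.2 + y.2 →
    (fl → v.2 ≤ 2 * gap k) → Ch v (Box (RR (k + 1)) (rr (k + 1))) s (mN k) ∧ s 0 = x ∧
      s (mN k) = y ∧ (s 1).2 = gap k / 2 ∧ (fl → ∃ n : ℤ, n % 2 = k % 2 ∧ ‖(s 14).1‖ = |(n : ℝ)|) := by
  by_cases H : Box (RR k) (rr k) v ∧ x.2 = gap k / 2 ∧ y.2 = gap k / 2 ∧
    ‖v.1 - x.1‖ = v.2 + x.2 ∧ ‖v.1 - y.1‖ = v.2 + y.2 ∧ (fl → v.2 ≤ 2 * gap k)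
  swap
  · exact ⟨fun _ => v, fun a b c d e f => absurd ⟨a, b, c, d, e, f⟩ H⟩
  obtain ⟨hv, x2, y2, tx, ty, hfl⟩ := H
  suffices h : ∃ s, Ch v (Box (RR (k + 1)) (rr (k + 1))) s (mN k) ∧ s 0 = x ∧
      s (mN k) = y ∧ (s 1).2 = gap k / 2 ∧ (fl → ∃ n : ℤ, n % 2 = k % 2 ∧ ‖(s 14).1‖ = |(n : ℝ)|) by
    obtain ⟨s, hs⟩ := h
    exact ⟨s, fun _ _ _ _ _ _ => hs⟩
  rw [RR_succ, rr_succ]
  have g0 := gap_pos k
  have g1 := gap_le k
  have t0 : 0 < gap k / 2 := by linarith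
  have b := inv_bd k
  have r1 : 3 ≤ rr k := by unfold rr; linarith
  have r2 : rr k ≤ 4 := by unfold rr; linarith
  have r3 : 19 ≤ RR k := by unfold RR; linarith
  have hR : 3 * rr k ≤ RR k := by linarith
  have sm : ∀ w : ℂ × ℝ, w.2 = gap k / 2 → ‖v.1 - w.1‖ = v.2 + w.2 →
      Box (RR k + gap k) (rr k + gap k) w := by
    intro w w1 w2
    have := norm_sub_norm_le w.1 v.1
    rw [norm_sub_rev] at this
    exact ⟨by linarith, by linarith, by linarith [hv.2.2]⟩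
  have big : ∀ n : ℕ, mN k ≤ n + 15 → 10 * (4 * v.2 + gap k) ≤ (n - 2) ^ 2 * gap k := by
    intro n hn
    have h1 : (1000 * (k + 2) : ℝ) ≤ n + 15 := by unfold mN at hn; exact_mod_cast hn
    clear hn
    have h2 : gap k * ((k + 1) * (k + 2)) = 1 := by unfold gap; field_simp
    have k0 : (0 : ℝ) ≤ k := Nat.cast_nonneg k
    have h3 : 170 * ((k + 1) * (k + 2) : ℝ) ≤ (n - 2) ^ 2 := by nlinarith
    nlinarith [hv.2.1]
  obtain ⟨w1, hw1⟩ := third_euc v x (gap k / 2)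
  obtain ⟨f1, e1⟩ := hw1 hv.1 (by linarith) tx t0
  have t1 : ‖v.1 - w1.1‖ = v.2 + w1.2 := by rw [norm_sub_rev, f1.t3, add_comm]
  obtain ⟨s1, c1, a1, a1'⟩ := Ch.single f1 (sm x x2 tx) (sm w1 e1 t1)
  have hm := mN_ge k
  by_cases hf : fl
  · obtain ⟨u, u1, hu⟩ := exists_unit v.1
    obtain ⟨n, n1, n2, n3⟩ : ∃ n : ℤ, n % 2 = k % 2 ∧ 1 ≤ ‖v.1‖ - v.2 - n ∧ ‖v.1‖ - v.2 - n < 3 := by
      refine ⟨2 * ⌊(‖v.1‖ - v.2 - 1 - k) / 2⌋ + k, by omega, ?_, ?_⟩ <;> push_cast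
      · linarith [Int.floor_le ((‖v.1‖ - v.2 - 1 - k) / 2)]
      · linarith [Int.lt_floor_add_one ((‖v.1‖ - v.2 - 1 - k) / 2)]
    let X : ℂ × ℝ := ((n : ℝ) • u, ‖v.1‖ - v.2 - n)
    have X1 : ‖X.1‖ = |(n : ℝ)| := by simp only [X]; rw [norm_smul, u1, mul_one, Real.norm_eq_abs]
    have X0 : 0 < X.2 := by simp only [X]; linarith
    have tX : ‖v.1 - X.1‖ = v.2 + X.2 := by
      have : v.1 - X.1 = (‖v.1‖ - n) • u := by simp only [X]; rw [sub_smul, ← hu]
      rw [this, norm_smul, u1, mul_one, Real.norm_eq_abs, abs_of_nonneg (by linarith [hv.1])]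
      simp only [X]; ring
    have bX : Box (RR k + gap k) (rr k + gap k) X := by
      refine ⟨X0, by simp only [X]; linarith, ?_⟩
      rw [X1]
      simp only [X]
      rcases abs_cases (n : ℝ) with h | h <;> linarith [hv.1, hv.2.1, hv.2.2, norm_nonneg v.1]
    obtain ⟨w13, hw13⟩ := third_euc X v (gap k / 2)
    obtain ⟨f13, e13⟩ := hw13 X0 hv.1 (by rw [norm_sub_rev, tX, add_comm]) t0
    obtain ⟨w15, hw15⟩ := third_euc v X (gap k / 2)
    obtain ⟨f15, e15⟩ := hw15 hv.1 X0 tX t0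
    have t15 : ‖v.1 - w15.1‖ = v.2 + w15.2 := by rw [norm_sub_rev, f15.t3, add_comm]
    obtain ⟨s2, c2, a2, a2'⟩ := fill hv hR t0 (g := gap k) (by linarith) e1 e13 t1 f13.t2 (n := 12)
      (by norm_num) (by push_cast; linarith [hfl hf])
    obtain ⟨s3, c3, a3, a3'⟩ := Ch.single f13.rot (sm w13 e13 f13.t2) bX
    obtain ⟨s4, c4, a4, a4'⟩ := Ch.single f15 bX (sm w15 e15 t15)
    obtain ⟨s5, c5, a5, a5'⟩ := fill hv hR t0 (g := gap k) (by linarith) e15 y2 t15 ty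
      (n := mN k - 15) (by omega) (big _ (by omega))
    obtain ⟨u2, d2, p2, q2⟩ := c1.concat c2 (by rw [a1', a2])
    obtain ⟨u3, d3, p3, q3⟩ := d2.concat c3 (by rw [q2, a2', a3])
    obtain ⟨u4, d4, p4, q4⟩ := d3.concat c4 (by rw [q3, a3', a4])
    obtain ⟨u5, d5, p5, q5⟩ := d4.concat c5 (by rw [q4, a4', a5])
    rw [show 1 + 12 + 1 + 1 + (mN k - 15) = mN k by omega] at d5 q5
    refine ⟨u5, d5, ?_, by rw [q5, a5'], ?_, fun _ => ⟨n, n1, ?_⟩⟩
    · rw [p5 _ (by omega), p4 _ (by omega), p3 _ (by omega), p2 _ (by omega), a1]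
    · rw [p5 _ (by omega), p4 _ (by omega), p3 _ (by omega), p2 _ (by omega), a1', e1]
    · rw [p5 _ (by omega), p4 _ (by omega), q3, a3', X1]
  · obtain ⟨s5, c5, a5, a5'⟩ := fill hv hR t0 (g := gap k) (by linarith) e1 y2 t1 ty
      (n := mN k - 1) (by omega) (big _ (by omega))
    obtain ⟨u2, d2, p2, q2⟩ := c1.concat c5 (by rw [a1', a5])
    rw [show 1 + (mN k - 1) = mN k by omega] at d2 q2
    exact ⟨u2, d2, by rw [p2 _ (by omega), a1], by rw [q2, a5'], by rw [p2 _ le_rfl, a1', e1],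
      fun h => absurd h hf⟩

/-- The special vertices have index one in their block. -/
def flag : ℕ → ℤ → Prop
  | 0, _ => False
  | k + 1, i => i % M k = 1

/-- A chosen third circle. -/
noncomputable def thE (x y : ℂ × ℝ) (t : ℝ) : ℂ × ℝ := Classical.choose (third_euc x y t)

/-- A chosen chain of children. -/
noncomputable def kdE (k : ℕ) (v x y : ℂ × ℝ) (fl : Prop) : ℕ → ℂ × ℝ :=
  Classical.choose (kids_euc k v x y fl)

/-- First child in the bounded packing. -/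
noncomputable def startE (k : ℕ) (f : ℤ → ℂ × ℝ) (i : ℤ) : ℂ × ℝ :=
  if k = 0 then (((1 + gap 0 / 2 : ℝ) : ℂ), gap 0 / 2)
  else thE (f i) (f (i - 1)) (gap k / 2)

/-- Children in the bounded packing. -/
noncomputable def kidsE (k : ℕ) (f : ℤ → ℂ × ℝ) (i : ℤ) : ℕ → ℂ × ℝ :=
  kdE k (f i) (startE k f i) (startE k f (i + 1)) (flag k i)

/-- The bounded packing. -/
noncomputable def layE : ℕ → ℤ → ℂ × ℝ
  | 0 => fun _ => (0, 1)
  | k + 1 => fun l => kidsE k (layE k) (l / M k) (l % M k).toNat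

lemma stepE {k : ℕ} {f : ℤ → ℂ × ℝ} (per : ∀ i, f (i + nn k) = f i)
    (box : ∀ i, Box (RR k) (rr k) (f i)) (s2 : ∀ i, (startE k f i).2 = gap k / 2)
    (t1 : ∀ i, ‖(f i).1 - (startE k f i).1‖ = (f i).2 + (startE k f i).2)
    (t2 : ∀ i, ‖(f i).1 - (startE k f (i + 1)).1‖ = (f i).2 + (startE k f (i + 1)).2)
    (fl : ∀ i, flag k i → (f i).2 ≤ 2 * gap k) {g : ℤ → ℂ × ℝ}
    (hg : g = fun l => kidsE k f (l / M k) (l % M k).toNat) :
    (∀ i, g (i + nn (k + 1)) = g i) ∧ (∀ i, Box (RR (k + 1)) (rr (k + 1)) (g i)) ∧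
      (∀ l, EFace (f (l / M k)) (g l) (g (l + 1))) ∧ (∀ i, g (i * M k) = startE k f i) ∧
      (∀ i, flag (k + 1) i → (g i).2 ≤ 2 * gap (k + 1)) ∧
      ∀ i, flag k i → ∃ n : ℤ, n % 2 = k % 2 ∧ ‖(g (i * M k + 14)).1‖ = |(n : ℝ)| := by
  have sp := fun i => Classical.choose_spec
    (kids_euc k (f i) (startE k f i) (startE k f (i + 1)) (flag k i)) (box i) (s2 i) (s2 _) (t1 i)
    (t2 i) (fl i)
  have hm := mN_ge k
  have blk : ∀ i (j : ℕ), j ≤ mN k → g (i * M k + j) = kidsE k f i j := by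
    intro i j hj
    rcases hj.eq_or_lt with rfl | hj
    · have : i * M k + (mN k : ℕ) = (i + 1) * M k + (0 : ℕ) := by rw [blk_top]; simp
      have h0 : 0 < mN k := by omega
      rw [this, hg]
      simp only [blk_div k _ h0, blk_mod k _ h0]
      exact (sp (i + 1)).2.1.trans (sp i).2.2.1.symm
    · simp only [hg, blk_div k _ hj, blk_mod k _ hj, Int.toNat_natCast]
  refine ⟨fun i => ?_, fun i => ?_, fun l => ?_, fun i => ?_, fun i hi => ?_, fun i hi => ?_⟩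
  · simp only [hg, add_nn_div, add_nn_mod]
    have e1 : ∀ i, startE k f (i + nn k) = startE k f i := by
      intro i
      unfold startE
      rw [per, add_sub_right_comm, per]
    have e2 : ∀ i, flag k (i + nn k) = flag k i := by
      intro i
      cases k with
      | zero => rfl
      | succ k => simp only [flag, add_nn_mod]
    unfold kidsE
    rw [per, e1, add_right_comm, e1, e2]
  · obtain ⟨j, hj, e, -⟩ := blk_ex k i
    rw [e, blk _ _ hj.le]
    exact (sp _).1.2 j hj.le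
  · obtain ⟨j, hj, e, -⟩ := blk_ex k l
    have e' : l + 1 = l / M k * M k + (j + 1 : ℕ) := by push_cast; linarith
    rw [e', blk _ _ hj]
    nth_rewrite 2 [e]
    rw [blk _ _ hj.le]
    exact (sp _).1.1 j hj
  · have := blk i 0 (Nat.zero_le _)
    rw [Nat.cast_zero, add_zero] at this
    rw [this]; exact (sp i).2.1
  · obtain ⟨j, hj, e, e'⟩ := blk_ex k i
    have hi' : i % M k = 1 := hi
    obtain rfl : j = 1 := by omega
    rw [e, blk _ _ hj.le]
    refine (sp _).2.2.2.1.le.trans ?_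
    clear hm hj
    unfold gap
    have k0 : (0 : ℝ) ≤ k := Nat.cast_nonneg k
    push_cast
    rw [div_div, mul_one_div, div_le_div_iff₀ (by positivity) (by positivity)]
    nlinarith
  · have := blk i 14 (by omega)
    rw [Nat.cast_ofNat] at this
    rw [this]; exact (sp i).2.2.2.2 hi

theorem exists_bounded : ∃ X, Pack X ∧ (∀ k i, ‖(X k i).1‖ + (X k i).2 ≤ 20) ∧
    ∀ (k : ℕ) (i : ℤ), ∃ n : ℤ, n % 2 = (k + 1) % 2 ∧
      ‖(X (k + 2) ((i * M k + 1) * M (k + 1) + 14)).1‖ = |(n : ℝ)| := by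
  have b0 : Box (RR 0) (rr 0) (0, 1) := ⟨one_pos, by norm_num [rr], by norm_num [RR]⟩
  have key : ∀ k, (∀ i, layE (k + 1) (i + nn (k + 1)) = layE (k + 1) i) ∧
      (∀ i, Box (RR (k + 1)) (rr (k + 1)) (layE (k + 1) i)) ∧
      (∀ l, EFace (layE k (l / M k)) (layE (k + 1) l) (layE (k + 1) (l + 1))) ∧
      (1 ≤ k → ∀ i, EFace (layE k i) (layE k (i - 1)) (layE (k + 1) (i * M k))) ∧
      (∀ i, flag (k + 1) i → (layE (k + 1) i).2 ≤ 2 * gap (k + 1)) ∧
      ∀ i, flag k i → ∃ n : ℤ, n % 2 = k % 2 ∧ ‖(layE (k + 1) (i * M k + 14)).1‖ = |(n : ℝ)| := by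
    intro k
    induction k with
    | zero =>
      have t : ∀ i j, ‖(layE 0 i).1 - (startE 0 (layE 0) j).1‖ =
          (layE 0 i).2 + (startE 0 (layE 0) j).2 := by
        intro i j
        simp only [layE, startE, if_true, zero_sub, norm_neg, Complex.norm_real, Real.norm_eq_abs]
        exact abs_of_pos (by linarith [gap_pos 0])
      have := stepE (k := 0) (f := layE 0) (fun _ => rfl) (fun _ => b0) (fun _ => by simp [startE])
        (fun i => t i i) (fun i => t i _) (fun i h => h.elim) (g := layE 1) rfl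
      exact ⟨this.1, this.2.1, this.2.2.1, fun h => absurd h (by norm_num), this.2.2.2.2⟩
    | succ k ih =>
      obtain ⟨per, box, fan, -, fl, -⟩ := ih
      have sf : ∀ i, EFace (layE (k + 1) i) (layE (k + 1) (i - 1)) (startE (k + 1) (layE (k + 1)) i) ∧
          (startE (k + 1) (layE (k + 1)) i).2 = gap (k + 1) / 2 := fun i => by
        simp only [startE, Nat.succ_ne_zero, if_false]
        refine Classical.choose_spec (third_euc (layE (k + 1) i) (layE (k + 1) (i - 1))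
          (gap (k + 1) / 2)) (box _).1 (box _).1 ?_ (by linarith [gap_pos (k + 1)])
        have := (fan (i - 1)).t2
        rw [sub_add_cancel] at this
        rw [norm_sub_rev, this, add_comm]
      have := stepE (k := k + 1) (f := layE (k + 1)) per box (fun i => (sf i).2)
        (fun i => by rw [norm_sub_rev, (sf i).1.t3, add_comm])
        (fun i => by have := (sf (i + 1)).1.t2; rwa [add_sub_cancel_right] at this) fl
        (g := layE (k + 2)) rfl
      exact ⟨this.1, this.2.1, this.2.2.1, fun _ i => by rw [this.2.2.2.1]; exact (sf i).1,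
        this.2.2.2.2⟩
  have box : ∀ k i, Box (RR k) (rr k) (layE k i) := by
    intro k i
    cases k with
    | zero => exact b0
    | succ k => exact (key k).2.1 i
  refine ⟨layE, ⟨fun k => ?_, fun k i => (box k i).1, fun k => (key k).2.2.1,
    fun k => (key (k + 1)).2.2.2.1 (by omega)⟩, fun k i => ?_, fun k i => ?_⟩
  · cases k with
    | zero => exact fun _ => rfl
    | succ k => exact (key k).1
  · have := (box k i).2.2
    unfold RR at this
    linarith [(inv_bd k).1]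
  · have h1 : 1 < mN k := by linarith [mN_ge k]
    exact (key (k + 1)).2.2.2.2.2 _ (by simpa [flag] using blk_mod k i h1)

end Pool.Agent.P.MP_3555ad_an
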