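import Pool.Agent.P.MP_3555ad_an.Shadow
import Pool.Agent.P.MP_3555ad_an.Bounded

set_option autoImplicit false

namespace Pool.Agent.P.MP_3555ad_an

open Real Filter Topology MeasureTheory Metric

/-- A nontangential approach along which the images do not converge. -/
def BadV (Z z : V → ℂ) (ζ : ℂ) : Prop :=
  ∃ v : ℕ → V, Tendsto (fun j => Z (v j)) atTop (𝓝 ζ) ∧
    (∃ C : ℝ, ∀ j, ‖ζ - Z (v j)‖ ≤ C * (1 - ‖Z (v j)‖)) ∧
    ¬∃ w, Tendsto (fun j => z (v j)) atTop (𝓝 w)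

lemma bad_of {Z z : V → ℂ} {ζ : ℂ} {C : ℝ}
    (H : ∀ k : ℕ, ∃ v, ‖ζ - Z v‖ ≤ C * (1 - ‖Z v‖) ∧ ‖ζ - Z v‖ ≤ C * eps k ∧
      ∃ n : ℤ, n % 2 = k % 2 ∧ ‖z v‖ = |(n : ℝ)|) : BadV Z z ζ := by
  choose v h1 h2 n h3 h4 using H
  refine ⟨v, ?_, ⟨C, h1⟩, ?_⟩
  · rw [tendsto_iff_norm_sub_tendsto_zero]
    refine squeeze_zero (g := fun j => C * eps j) (fun _ => norm_nonneg _)
      (fun j => (norm_sub_rev _ _).trans_le (h2 j)) ?_
    simpa using eps_tendsto.const_mul C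
  · rintro ⟨w, hw⟩
    have t1 := hw.norm
    have t2 := (t1.comp (tendsto_add_atTop_nat 1)).sub t1
    rw [sub_self] at t2
    obtain ⟨j, hj⟩ := (t2.eventually (Ioo_mem_nhds (show (-1 : ℝ) < 0 by norm_num) one_pos)).exists
    simp only [Function.comp, h4] at hj
    have a1 : (-1 : ℤ) < |n (j + 1)| - |n j| := by exact_mod_cast hj.1
    have a2 : |n (j + 1)| - |n j| < (1 : ℤ) := by exact_mod_cast hj.2
    have a3 := h3 j
    have a4 := h3 (j + 1)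
    push_cast at a4
    rcases abs_cases (n j) with b1 | b1 <;> rcases abs_cases (n (j + 1)) with b2 | b2 <;> omega

variable {η : ℕ → ℤ → ℝ} {U : ℕ → ℤ → Cir} {a : ℕ → ℤ → ℝ}

lemma Args.near_sp (h : Lab η) (L : Lay η U) (A : Args U a) (k : ℕ) {ζ : ℂ} (hζ : ‖ζ‖ = 1) :
    ∃ i, ‖ζ - cen (U (k + 3) (sp k i))‖ ≤ 10 ^ 8 * (1 - ‖cen (U (k + 3) (sp k i))‖) ∧
      ‖ζ - cen (U (k + 3) (sp k i))‖ ≤ 10 ^ 8 * eps k := by
  obtain ⟨i, hi⟩ := A.near h L k hζ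
  refine ⟨i, ?_⟩
  have b1 : 1 ≤ mN (k + 1) := le_trans (by norm_num) (mN_ge _)
  have b2 : 14 ≤ mN (k + 2) := le_trans (by norm_num) (mN_ge _)
  have u1 := L.up h k i (j := 1) (Or.inl (by norm_num))
  have u2 := L.up h (k + 1) (i * M (k + 1) + 1) (j := 14) (Or.inl le_rfl)
  have l1 := L.low1 h k i b1
  have l2 := L.low1 h (k + 1) (i * M (k + 1) + 1) b2
  have t1 := (tang_iff (L.ok h _ _) (L.ok h _ _)).1 (L.tang (k + 1) i b1)
  have t2 := (tang_iff (L.ok h _ _) (L.ok h _ _)).1 (L.tang (k + 2) (i * M (k + 1) + 1) b2)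
  clear b1 b2
  push_cast at u1 u2 l1 l2 t1 t2
  have o1 := L.ok h (k + 1) i
  have o2 := L.ok h (k + 2) (i * M (k + 1) + 1)
  have o3 := L.ok h (k + 3) (sp k i)
  have g0 := L.tau_ge h k i
  have g1 := L.tau_ge' h (k + 2) (sp k i)
  have e3 : (U (k + 3) (sp k i)).η ≤ 101 / 100 := by rw [L.lab]; exact h.le _ _
  change (U (k + 3) (sp k i)).τ ≤ _ at u2
  change _ ≤ (U (k + 3) (sp k i)).τ at l2 g1
  change ‖cen (U (k + 2) _) - cen (U (k + 3) (sp k i))‖ = rad (U (k + 2) _) + rad (U (k + 3) (sp k i))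
    at t2
  change ‖cen (U (k + 1) i) - cen (U (k + 2) _)‖ = rad _ + rad (U (k + 2) _) at t1
  have p1 := o1.pos
  have r1 := o1.rad_le
  have r2 : rad (U (k + 2) (i * M (k + 1) + 1)) ≤ 11 / 10 * (U (k + 1) i).τ⁻¹ :=
    o2.rad_le.trans (by
      rw [← div_eq_mul_inv, inv_eq_one_div, div_le_div_iff₀ o2.pos p1]; linarith)
  have r3 : rad (U (k + 3) (sp k i)) ≤ 11 / 10 * (U (k + 1) i).τ⁻¹ :=
    o3.rad_le.trans (by
      rw [← div_eq_mul_inv, inv_eq_one_div, div_le_div_iff₀ o3.pos p1]; linarith)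
  have r4 : (U (k + 1) i).τ⁻¹ ≤ 10 ^ 7 * rad (U (k + 3) (sp k i)) := by
    rw [rad, ← div_eq_mul_inv, inv_eq_one_div, div_le_div_iff₀ p1 (by linarith [o3.one])]
    linarith
  have r5 : (U (k + 1) i).τ⁻¹ ≤ eps k := inv_anti₀ (by positivity) g0
  have n1 := norm_sub_le_norm_sub_add_norm_sub ζ (cen (U (k + 1) i)) (cen (U (k + 3) (sp k i)))
  have n2 := norm_sub_le_norm_sub_add_norm_sub (cen (U (k + 1) i))
    (cen (U (k + 2) (i * M (k + 1) + 1))) (cen (U (k + 3) (sp k i)))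
  have := o3.inside
  have := eps_pos k
  have := inv_pos.2 p1
  constructor <;> linarith

theorem core : ∃ (c H z : V → ℂ) (r ρ : V → ℝ) (m : Mesh c FF),
    m.complex.space = ball 0 1 ∧
    (∀ t < 1, {s ∈ m.complex.faces |
      (convexHull ℝ (s : Set ℂ) ∩ closedBall 0 t).Nonempty}.Finite) ∧
    (∀ v, 0 < r v ∧ ‖c v‖ + r v < 1) ∧
    (∀ x y w, FF x y w → EFace (c x, r x) (c y, r y) (c w, r w)) ∧
    (∀ v, 0 < ρ v ∧ ‖z v‖ + ρ v ≤ 20) ∧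
    (∀ x y w, FF x y w → EFace (z x, ρ x) (z y, ρ y) (z w, ρ w)) ∧
    (∀ v, ‖H v‖ < 1 ∧ ∃ q : ℝ, ∀ w, ‖w - c v‖ = r v →
      ‖w - H v‖ = q * ‖1 - (starRingEnd ℂ) (H v) * w‖) ∧
    (∀ ζ, ‖ζ‖ = 1 → BadV c z ζ) ∧ ∀ᵐ t : ℝ, BadV H z (ex t) := by
  obtain ⟨η, h⟩ := exists_lab
  obtain ⟨U, L⟩ := exists_lay h
  obtain ⟨a, A⟩ := exists_args h L
  obtain ⟨X, P, hX, hs⟩ := exists_bounded
  have par : ∀ (k : ℕ) (i : ℤ), ∃ n : ℤ, n % 2 = k % 2 ∧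
      ‖(lift X (mk (k + 3) (sp k i))).1‖ = |(n : ℝ)| := by
    intro k i
    obtain ⟨n, h1, h2⟩ := hs (k + 1) i
    rw [lift_mk P.per]
    exact ⟨n, by push_cast at h1; omega, h2⟩
  refine ⟨cV U, fun v => hc (lift U v), fun v => (lift X v).1, rV U, fun v => (lift X v).2,
    A.mesh h L, A.space h L, fun t ht => A.finite h L ht, fun v => ⟨L.rV_pos h v, L.inside h v⟩,
    fun x y w hF => (L.pack h).face hF, fun v => ⟨P.pos _ _, hX _ _⟩, fun x y w hF => P.face hF,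
    fun v => ⟨?_, _, (L.ok h _ _).hc_spec (L.gt h _ _)⟩, fun ζ hζ => bad_of (C := 10 ^ 8) fun k => ?_,
    ?_⟩
  · have := (L.ok h v.1.1 v.1.2).hc_lower (L.gt h _ _)
    have h2 := div_pos (sv_pos (L.gt h v.1.1 v.1.2)) (mul_pos two_pos (L.ok h v.1.1 v.1.2).pos)
    simp only [lift]
    linarith
  · obtain ⟨i, h1, h2⟩ := A.near_sp h L k hζ
    exact ⟨mk (k + 3) (sp k i), by rwa [cV_mk h L], by rwa [cV_mk h L], par k i⟩
  · filter_upwards [A.ae_acc h L] with t ht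
    refine bad_of (C := 7) fun k => ?_
    obtain ⟨j, i, hi⟩ := ht k
    obtain ⟨n, h1, h2⟩ := par (k + 4 * j) i
    refine ⟨mk (k + 4 * j + 3) (sp (k + 4 * j) i), by rwa [lift_mk L.per], ?_, n,
      by push_cast at h1; omega, h2⟩
    rw [lift_mk L.per]
    refine hi.trans (mul_le_mul_of_nonneg_left ?_ (by norm_num))
    have g := L.tau_ge h (k + 4 * j + 2) (sp (k + 4 * j) i)
    refine ((L.ok h _ _).hc_upper (L.gt h _ _) ?_ ?_).trans ?_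
    · rw [L.lab]; linarith [h.sv_small (k + 4 * j + 3) (sp (k + 4 * j) i)]
    · linarith [L.tau_ge' h (k + 4 * j + 2) (sp (k + 4 * j) i)]
    · exact (inv_anti₀ (by positivity) g).trans (eps_anti (k := k) (by omega))

end Pool.Agent.P.MP_3555ad_an
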