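import Pool.Agent.P.MP_3555ad_an.Tiling

set_option autoImplicit false

namespace Pool.Agent.P.MP_3555ad_an

open Real Finset Filter Topology MeasureTheory

/-- Hyperbolic centre. -/
noncomputable def hc (c : Cir) : ℂ := (c.τ + sv c.η)⁻¹ • c.ζ

lemma Ok.norm_hc {c : Cir} (h : Ok c) : ‖hc c‖ = ‖c.ζ‖ / (c.τ + sv c.η) := by
  have : 0 < c.τ + sv c.η := add_pos_of_pos_of_nonneg h.pos (Real.sqrt_nonneg _)
  rw [hc, norm_smul, Real.norm_eq_abs, abs_of_pos (inv_pos.2 this)]; ring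

lemma Ok.hc_lower {c : Cir} (h : Ok c) (h1 : 1 < c.η) : sv c.η / (2 * c.τ) ≤ 1 - ‖hc c‖ := by
  have hs := sv_pos h1
  have h2 := h.pos
  have h3 : sv c.η ≤ c.τ := le_of_sq_le_sq (by
    rw [sv_sq h1.le]; nlinarith [h.nrm', sq_nonneg ‖c.ζ‖]) h2.le
  rw [h.norm_hc, one_sub_div (by positivity)]
  exact div_le_div₀ (by linarith [h.norm_le]) (by linarith [h.norm_le]) (by positivity) (by linarith)

lemma Ok.hc_upper {c : Cir} (h : Ok c) (h1 : 1 < c.η) (h4 : sv c.η ≤ 1 / 2) (h5 : 1 ≤ c.τ) :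
    1 - ‖hc c‖ ≤ c.τ⁻¹ := by
  have hs := sv_pos h1
  have h2 := h.nrm'
  rw [← sv_sq h1.le] at h2
  have h3 : c.τ - ‖c.ζ‖ ≤ 1 / 2 := by nlinarith [h.norm_le, norm_nonneg c.ζ]
  rw [h.norm_hc, one_sub_div (by positivity), inv_eq_one_div]
  exact div_le_div₀ (by norm_num) (by linarith) (by positivity) (by linarith)

lemma Ok.hc_spec {c : Cir} (h : Ok c) (h1 : 1 < c.η) (w : ℂ) (hw : ‖w - cen c‖ = rad c) :
    ‖w - hc c‖ = (c.η - sv c.η) * ‖1 - (starRingEnd ℂ) (hc c) * w‖ := by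
  have hs := sv_pos h1
  have h2 := sv_sq h1.le
  have h3 := h.nrm
  have h4 := h.pos
  have h5 : sv c.η < c.η := lt_of_pow_lt_pow_left₀ 2 (by linarith) (by linarith)
  rw [← sq_eq_sq₀ (norm_nonneg _) h.rad_pos.le, ← ip_self] at hw
  rw [← sq_eq_sq₀ (norm_nonneg _) (mul_nonneg (by linarith) (norm_nonneg _)), mul_pow, ← ip_self,
    ← ip_self]
  obtain ⟨b, hb⟩ : ∃ b, b = (c.τ + c.η)⁻¹ := ⟨_, rfl⟩
  obtain ⟨k, hk⟩ : ∃ k, k = (c.τ + sv c.η)⁻¹ := ⟨_, rfl⟩
  have b1 : b * (c.τ + c.η) = 1 := by rw [hb]; field_simp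
  have k1 : k * (c.τ + sv c.η) = 1 := by rw [hk]; field_simp
  simp only [bb, ip, cen, rad, hc, ← hb, ← hk, Complex.sub_re, Complex.sub_im, Complex.smul_re,
    Complex.smul_im, smul_eq_mul, Complex.mul_re, Complex.mul_im, Complex.conj_re, Complex.conj_im,
    Complex.one_re, Complex.one_im] at h3 hw ⊢
  have e : (c.τ + c.η) * (w.re ^ 2 + w.im ^ 2) - 2 * (w.re * c.ζ.re + w.im * c.ζ.im) +
      (c.τ - c.η) = 0 := by grind
  grind

lemma norm_ex_sub (x y : ℝ) : ‖ex x - ex y‖ ≤ |x - y| := by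
  have : ex x - ex y = ex y * (ex (x - y) - 1) := by
    rw [mul_sub, ← ex_add]; simp
  rw [this, norm_mul, norm_ex, one_mul, ex, mul_comm]
  exact Real.norm_exp_I_mul_ofReal_sub_one_le

/-- The argument of the last descendant after `n` generations. -/
noncomputable def BB (a : ℕ → ℤ → ℝ) : ℕ → ℕ → ℤ → ℝ
  | 0, k, i => a k i
  | n + 1, k, i => BB a n (k + 1) ((i + 1) * M (k + 1) - 1)

/-- The index of the special grandchild. -/
def sp (k : ℕ) (i : ℤ) : ℤ := (i * M (k + 1) + 1) * M (k + 2) + 14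

variable {η : ℕ → ℤ → ℝ} {U : ℕ → ℤ → Cir} {a : ℕ → ℤ → ℝ}

lemma Args.mono (A : Args U a) (k : ℕ) : StrictMono (a k) := strictMono_int_of_lt_succ (A.lt k)

lemma Args.BB_mono (A : Args U a) (n k : ℕ) : Monotone (BB a n k) := by
  induction n generalizing k with
  | zero => exact (A.mono k).monotone
  | succ n ih =>
    intro i j hij
    exact ih (k + 1) (by nlinarith [M_pos (k + 1)])

lemma Args.BB_close (h : Lab η) (L : Lay η U) (A : Args U a) (n k : ℕ) (i : ℤ) :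
    |BB a n k i - a k i| ≤ 3 / (U (k + 1) i).τ := by
  induction n generalizing k i with
  | zero => simp only [BB, sub_self, abs_zero]; exact div_nonneg (by norm_num) (L.ok h _ _).pos.le
  | succ n ih =>
    have hm := mN_ge (k + 1)
    have e : (i + 1) * M (k + 1) - 1 = i * M (k + 1) + (mN (k + 1) - 1 : ℕ) := by
      rw [Nat.cast_sub (by omega), ← blk_top]; push_cast; ring
    have h1 := ih (k + 1) ((i + 1) * M (k + 1) - 1)
    have h2 := A.par k i (mN (k + 1) - 1) (by omega)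
    have h3 := L.low2 h k i (j := mN (k + 1) - 1) (by omega) (by omega)
    clear hm
    rw [← e] at h2 h3
    have p := (L.ok h (k + 1) i).pos
    have h4 : 3 / (U (k + 1 + 1) ((i + 1) * M (k + 1) - 1)).τ ≤ 1 / (U (k + 1) i).τ := by
      rw [div_le_div_iff₀ (by linarith) p]; linarith
    have h5 : |a (k + 1) ((i + 1) * M (k + 1) - 1) - a k i| ≤ 2 / (U (k + 1) i).τ := by
      apply abs_le_of_sq_le_sq _ (by positivity)
      rw [div_pow, le_div_iff₀ (by positivity)]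
      nlinarith [mul_le_mul_of_nonneg_left (mul_le_mul_of_nonneg_left h3 p.le)
        (sq_nonneg (a (k + 1) ((i + 1) * M (k + 1) - 1) - a k i))]
    have h6 := abs_sub_le (BB a (n + 1) k i) (a (k + 1) ((i + 1) * M (k + 1) - 1)) (a k i)
    have h7 : 3 / (U (k + 1) i).τ = 1 / (U (k + 1) i).τ + 2 / (U (k + 1) i).τ := by ring
    simp only [BB] at h6 ⊢
    linarith

lemma Args.len (h : Lab η) (L : Lay η U) (A : Args U a) (n k : ℕ) (i : ℤ) :
    BB a n k (i + 1) - BB a n k i ≤ 7000 / (U (k + 1) (i + 1)).τ := by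
  have h1 := (abs_le.1 (A.BB_close h L n k (i + 1))).2
  have h2 := (abs_le.1 (A.BB_close h L n k i)).1
  have h3 := A.step k i
  have h4 := L.low1 h k (i + 1) (Nat.zero_le _)
  have h5 := L.up h k i (Or.inr rfl)
  rw [blk_top] at h5
  rw [Nat.cast_zero, add_zero] at h4
  have p := (L.ok h (k + 1) i).pos
  have q := (L.ok h (k + 1) (i + 1)).pos
  have h6 : (U (k + 1) (i + 1)).τ ≤ 2100 * (U (k + 1) i).τ := by linarith
  have h7 : 3 / (U (k + 1) i).τ ≤ 6300 / (U (k + 1) (i + 1)).τ := by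
    rw [div_le_div_iff₀ p q]; linarith
  have h8 : a k (i + 1) - a k i ≤ 200 / (U (k + 1) (i + 1)).τ := by
    apply le_of_sq_le_sq _ (by positivity)
    rw [div_pow, le_div_iff₀ (by positivity)]
    nlinarith [mul_le_mul_of_nonneg_left (mul_le_mul_of_nonneg_right h6 q.le)
      (sq_nonneg (a k (i + 1) - a k i))]
  have h9 : 0 < 1 / (U (k + 1) (i + 1)).τ := by positivity
  simp only [div_eq_mul_inv] at *
  linarith

lemma Pic.hit {k : ℕ} {i : ℤ} {ω : ℂ} {φ : ℝ} (P : Pic η U k i ω φ) (h : Lab η) {c : ℝ}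
    (h1 : 8 * sv (η k i) < c) (h2 : c ≤ 2 * π - 8 * sv (η k i)) :
    ∃ j ≤ mN k, c ≤ φ + fanS η k i (η k i) j ∧ φ + fanS η k i (η k i) j ≤ c + 2 * sv (η k i) := by
  classical
  have ex : ∃ j, c ≤ φ + fanS η k i (η k i) j := ⟨mN k, by
    have := P.hi' _ le_rfl
    rw [sub_self] at this; linarith⟩
  have le : Nat.find ex ≤ mN k := Nat.find_min' ex (by
    have := P.hi' _ le_rfl
    rw [sub_self] at this; linarith)
  refine ⟨_, le, Nat.find_spec ex, ?_⟩
  obtain h0 | ⟨j, hj⟩ : Nat.find ex = 0 ∨ ∃ j, Nat.find ex = j + 1 := by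
    rcases Nat.find ex with _ | j
    exacts [Or.inl rfl, Or.inr ⟨j, rfl⟩]
  · have := Nat.find_spec ex
    have h3 := P.hi 0 (Nat.zero_le _)
    rw [h0] at this
    push_cast at h3; linarith
  · have h3 := Nat.find_min ex (m := j) (by omega)
    have h4 := fanS_le h.one k i (h.one k i) (Nat.le_succ j)
    rw [hj]
    push_cast at h4; linarith

lemma child_est {τ ρ η b s φ t z δ : ℝ} (hρ : 0 < ρ) (hτ : ρ ≤ τ) (hη : 1 ≤ η) (hb : 1 ≤ b)
    (hη' : η ≤ 101 / 100) (hb' : b ≤ 101 / 100) (hs : 0 < s) (hz : 0 ≤ z) (hz' : z ≤ t)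
    (e1 : t * s ^ 2 = τ * (1 + η * b) - ρ * (η + b) * cos φ) (hc : cos φ ≤ 0)
    (e2 : ρ * z * sin δ * s = -(ρ * (η + b) * sin φ)) (e3 : δ ^ 2 * (τ * t) ≤ 11)
    (hd : |δ| ≤ π) : 3 / t ≤ 2 * s * (s / τ) ∧ |δ| ≤ 5 / 2 * (s / τ) ∧
      (99 / 100 ≤ sin φ → δ ≤ -(2 / 5 * (s / τ))) ∧ (sin φ ≤ -(99 / 100) → 2 / 5 * (s / τ) ≤ δ) := by
  have τ0 : 0 < τ := by linarith
  have a1 : 2 * τ ≤ t * s ^ 2 := by
    have : 0 ≤ ρ * (η + b) * -cos φ := by
      have := neg_nonneg.2 hc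
      positivity
    nlinarith [mul_le_mul hη hb zero_le_one (by linarith : (0 : ℝ) ≤ η)]
  have a2 : t * s ^ 2 ≤ 41 / 10 * τ := by
    have h1 : ρ * (η + b) * -cos φ ≤ τ * (202 / 100) * 1 :=
      mul_le_mul (mul_le_mul hτ (by linarith) (by linarith) τ0.le)
        (by linarith [Real.neg_one_le_cos φ]) (by linarith) (by positivity)
    nlinarith [mul_le_mul hη' hb' (by linarith) (by norm_num : (0 : ℝ) ≤ 101 / 100)]
  have t0 : 0 < t := by
    by_contra hn
    nlinarith [mul_nonneg (neg_nonneg.2 (not_lt.1 hn)) (sq_nonneg s)]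
  have e4 : z * sin δ * s = -((η + b) * sin φ) := by
    apply mul_left_cancel₀ hρ.ne'; linarith
  have key : ∀ x : ℝ, |x| ≤ π → 198 / 100 ≤ z * sin x * s → 2 / 5 * (s / τ) ≤ x := by
    intro x hx h1
    have x0 : 0 < x := by
      by_contra hn
      have := Real.sin_nonpos_of_nonpos_of_neg_pi_le (not_lt.1 hn) (abs_le.1 hx).1
      nlinarith [mul_nonneg (mul_nonneg hz (neg_nonneg.2 this)) hs.le]
    have h2 : z * sin x * s ≤ t * x * s := by
      refine mul_le_mul_of_nonneg_right ?_ hs.le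
      exact (mul_le_mul_of_nonneg_left (Real.sin_le x0.le) hz).trans
        (mul_le_mul_of_nonneg_right hz' x0.le)
    rw [← mul_div_assoc, div_le_iff₀ τ0]
    nlinarith [mul_le_mul_of_nonneg_left a2 x0.le, mul_le_mul_of_nonneg_right (h1.trans h2) hs.le]
  refine ⟨?_, ?_, fun h => ?_, fun h => key δ hd (by rw [e4]; nlinarith)⟩
  · rw [← mul_div_assoc, div_le_div_iff₀ t0 τ0]; nlinarith
  · apply abs_le_of_sq_le_sq _ (by positivity)
    rw [← mul_div_assoc, div_pow, le_div_iff₀ (by positivity)]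
    nlinarith [mul_le_mul_of_nonneg_left a1 (mul_nonneg (sq_nonneg δ) τ0.le),
      mul_le_mul_of_nonneg_left e3 (sq_nonneg s), sq_nonneg s]
  · have := key (-δ) (by rwa [abs_neg]) (by rw [sin_neg]; nlinarith)
    linarith

lemma Args.window (h : Lab η) (L : Lay η U) (A : Args U a) (n k : ℕ) (i : ℤ) :
    ∃ j1 j2 : ℕ, j1 ≤ j2 ∧ j2 ≤ mN (k + 1) ∧
      sv (η (k + 1) i) / (2 * (U (k + 1) i).τ) ≤
        BB a n (k + 1) (i * M (k + 1) + j2) - BB a n (k + 1) (i * M (k + 1) + j1) ∧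
      ∀ t ∈ Set.Ioc (BB a n (k + 1) (i * M (k + 1) + j1)) (BB a n (k + 1) (i * M (k + 1) + j2)),
        ‖ex t - hc (U (k + 1) i)‖ ≤ 7 * (1 - ‖hc (U (k + 1) i)‖) := by
  obtain ⟨ω, φ, P⟩ := L.pic h k i
  have hs := sv_pos (h.gt (k + 1) i)
  have hss := h.sv_small (k + 1) i
  have hp := Real.pi_gt_three
  have o := L.ok h (k + 1) i
  have τ0 := o.pos
  have z0 : 0 < ‖(U (k + 1) i).ζ‖ := by
    linarith [o.norm_ge (by rw [L.lab]; exact h.le _ _) (L.tau_ge' h k i)]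
  have est := fun j (hj : j ≤ mN (k + 1)) hc => child_est (φ := φ + fanS η (k + 1) i (η (k + 1) i) j)
    (δ := a (k + 1) (i * M (k + 1) + j) - a k i) z0 o.norm_le (h.one _ _)
    (h.one (k + 1 + 1) (i * M (k + 1) + j)) (h.le _ _) (h.le _ _) hs (norm_nonneg _)
    (L.ok h (k + 1 + 1) (i * M (k + 1) + j)).norm_le (P.tau h L hj) hc
    (by rw [← P.cpv h L hj, cp_pol (A.pol k i) (A.pol (k + 1) _)]) (A.par k i j hj)
    ((small_of_close (A.par k i j hj) (L.tau_ge' h _ _) (L.tau_ge' h _ _)).trans (by linarith))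
  obtain ⟨j1, b1, c1, d1⟩ := P.hit h (c := π / 2) (by linarith) (by linarith)
  obtain ⟨j2, b2, c2, d2⟩ := P.hit h (c := 3 * π / 2 - 2 * sv (η (k + 1) i)) (by linarith)
    (by linarith)
  have cs : ∀ x : ℝ, |x| ≤ 2 * sv (η (k + 1) i) → 99 / 100 ≤ cos x := by
    intro x hx
    have := Real.one_sub_sq_div_two_le_cos (x := x)
    have h2 : x ^ 2 ≤ (1 / 125) ^ 2 := sq_le_sq' (by linarith [(abs_le.1 hx).1])
      (by linarith [(abs_le.1 hx).2])
    linarith
  obtain ⟨e1, f1, g1, -⟩ := est j1 b1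
    (Real.cos_nonpos_of_pi_div_two_le_of_le c1 (by linarith))
  obtain ⟨e2, f2, -, g2⟩ := est j2 b2
    (Real.cos_nonpos_of_pi_div_two_le_of_le (by linarith) (by linarith))
  have g1 := g1 (by
    rw [← Real.cos_sub_pi_div_two]; exact cs _ (abs_le.2 ⟨by linarith, by linarith⟩))
  have g2 := g2 (by
    have := cs (φ + fanS η (k + 1) i (η (k + 1) i) j2 - π - π / 2)
      (abs_le.2 ⟨by linarith, by linarith⟩)
    rw [Real.cos_sub_pi_div_two, Real.sin_sub_pi] at this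
    linarith)
  have k1 := abs_le.1 ((A.BB_close h L n (k + 1) _).trans e1)
  have k2 := abs_le.1 ((A.BB_close h L n (k + 1) _).trans e2)
  have q0 : 0 < sv (η (k + 1) i) / (U (k + 1) i).τ := div_pos hs τ0
  have q1 : 2 * sv (η (k + 1) i) * (sv (η (k + 1) i) / (U (k + 1) i).τ) ≤
      1 / 100 * (sv (η (k + 1) i) / (U (k + 1) i).τ) :=
    mul_le_mul_of_nonneg_right (by linarith) q0.le
  have q2 : sv (η (k + 1) i) / (2 * (U (k + 1) i).τ) =
      1 / 2 * (sv (η (k + 1) i) / (U (k + 1) i).τ) := by field_simp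
  refine ⟨j1, j2, ?_, b2, by linarith, fun t ht => ?_⟩
  · have : i * M (k + 1) + j1 < i * M (k + 1) + j2 := (A.mono (k + 1)).lt_iff_lt.1 (by linarith)
    omega
  · have m1 : |t - a k i| ≤ 3 * (sv (η (k + 1) i) / (U (k + 1) i).τ) :=
      abs_le.2 ⟨by linarith [ht.1, (abs_le.1 f1).1], by linarith [ht.2, (abs_le.1 f2).2]⟩
    have m2 := o.hc_lower (L.gt h _ _)
    rw [L.lab] at m2
    have m3 : ‖ex (a k i) - hc (U (k + 1) i)‖ = 1 - ‖hc (U (k + 1) i)‖ := by
      have : hc (U (k + 1) i) = ‖hc (U (k + 1) i)‖ • ex (a k i) := by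
        rw [o.norm_hc, div_eq_inv_mul, mul_smul, ← A.pol]; rfl
      nth_rewrite 1 [this]
      rw [show ∀ x : ℝ, ex (a k i) - x • ex (a k i) = (1 - x) • ex (a k i) from
        fun x => by module, norm_smul, norm_ex, mul_one, Real.norm_eq_abs,
        abs_of_nonneg (by linarith)]
    linarith [norm_sub_le_norm_sub_add_norm_sub (ex t) (ex (a k i)) (hc (U (k + 1) i)),
      norm_ex_sub t (a k i)]

/-- Boundary points that see a special hyperbolic centre of layer `k + 3` in a fixed Stolz angle. -/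
def Acc (U : ℕ → ℤ → Cir) (k : ℕ) : Set ℝ :=
  {t | ∃ i, ‖ex t - hc (U (k + 3) (sp k i))‖ ≤ 7 * (1 - ‖hc (U (k + 3) (sp k i))‖)}

/-- Density bound for `F` in the shadows of layer `k + 1`. -/
def Dens (F : Set ℝ) (b : ℤ → ℝ) (c : ℝ) : Prop :=
  ∀ l l', l ≤ l' → volume (F ∩ Set.Ioc (b l) (b l')) ≤ ENNReal.ofReal (c * (b l' - b l))

lemma dens_of_step {F : Set ℝ} {b : ℤ → ℝ} {c : ℝ} (hb : Monotone b) (hc : 0 ≤ c)
    (h : ∀ l, volume (F ∩ Set.Ioc (b l) (b (l + 1))) ≤ ENNReal.ofReal (c * (b (l + 1) - b l))) :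
    Dens F b c := by
  intro l l' hl
  induction l', hl using Int.leInduction with
  | base => simp
  | succ m hm ih =>
    have h1 := hb hm
    have h2 := hb (show m ≤ m + 1 by omega)
    rw [← Set.Ioc_union_Ioc_eq_Ioc h1 h2, Set.inter_union_distrib_left]
    refine (measure_union_le _ _).trans ((add_le_add ih (h m)).trans (le_of_eq ?_))
    rw [← ENNReal.ofReal_add (mul_nonneg hc (by linarith)) (mul_nonneg hc (by linarith))]
    congr 1; ring

/-- The proportion removed at stage `k`. -/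
noncomputable def gam (k : ℕ) : ℝ := 1 / (10 ^ 14 * (k + 5))

lemma gam_pos (k : ℕ) : 0 < gam k := by unfold gam; positivity

lemma sp_ineq (k : ℕ) (l : ℤ) {j1 j2 : ℤ} (h1 : 0 ≤ j1) (h2 : j2 ≤ M (k + 3)) :
    l * M (k + 1) * M (k + 2) * M (k + 3) - 1 ≤ sp k l * M (k + 3) + j1 ∧
      sp k l * M (k + 3) + j2 ≤ (l + 1) * M (k + 1) * M (k + 2) * M (k + 3) - 1 := by
  have m1 : 20 ≤ M (k + 1) := le_trans (by norm_num) (M_ge _)
  have m2 : 20 ≤ M (k + 2) := le_trans (by norm_num) (M_ge _)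
  have m3 : 20 ≤ M (k + 3) := le_trans (by norm_num) (M_ge _)
  have h3 : M (k + 2) + 16 ≤ M (k + 1) * M (k + 2) := by nlinarith
  unfold sp
  constructor <;> nlinarith

lemma Args.kill (h : Lab η) (L : Lay η U) (A : Args U a) {F : Set ℝ} {n k : ℕ} {c : ℝ}
    (hc : 0 ≤ c) (hF : Disjoint F (Acc U k)) (D : Dens F (BB a n (k + 3)) c) :
    Dens F (BB a (n + 3) k) (c * (1 - gam k)) := by
  have g1 : gam k ≤ 1 := by
    unfold gam
    rw [div_le_one (by positivity)]; nlinarith [(Nat.cast_nonneg k : (0 : ℝ) ≤ k)]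
  refine dens_of_step (A.BB_mono _ _) (mul_nonneg hc (by linarith)) fun l => ?_
  obtain ⟨j1, j2, a1, a2, a3, a4⟩ := A.window h L n (k + 2) (sp k (l + 1))
  have len := A.len h L (n + 3) k l
  have e1 : BB a (n + 3) k l =
      BB a n (k + 3) ((l + 1) * M (k + 1) * M (k + 2) * M (k + 3) - 1) := by
    simp only [BB, sub_add_cancel]
  have e2 : BB a (n + 3) k (l + 1) =
      BB a n (k + 3) ((l + 1 + 1) * M (k + 1) * M (k + 2) * M (k + 3) - 1) := by
    simp only [BB, sub_add_cancel]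
  obtain ⟨i1, i2⟩ := sp_ineq k (l + 1) (j1 := j1) (j2 := j2) (Nat.cast_nonneg _)
    (by unfold M; exact_mod_cast a2)
  have d1 := D _ _ i1
  have d2 := D _ _ i2
  have o1 := A.BB_mono n (k + 3) i1
  have o2 := A.BB_mono n (k + 3) i2
  rw [← e1] at d1 o1
  rw [← e2] at d2 o2
  have sub : F ∩ Set.Ioc (BB a (n + 3) k l) (BB a (n + 3) k (l + 1)) ⊆
      F ∩ Set.Ioc (BB a (n + 3) k l) (BB a n (k + 3) (sp k (l + 1) * M (k + 3) + j1)) ∪
      F ∩ Set.Ioc (BB a n (k + 3) (sp k (l + 1) * M (k + 3) + j2)) (BB a (n + 3) k (l + 1)) := by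
    rintro t ⟨t1, t2, t3⟩
    by_cases c1 : t ≤ BB a n (k + 3) (sp k (l + 1) * M (k + 3) + j1)
    · exact Or.inl ⟨t1, t2, c1⟩
    · refine Or.inr ⟨t1, ?_, t3⟩
      by_contra c2
      exact Set.disjoint_left.1 hF t1 ⟨l + 1, a4 t ⟨not_le.1 c1, not_lt.1 c2⟩⟩
  refine (measure_mono sub).trans ((measure_union_le _ _).trans ((add_le_add d1 d2).trans ?_))
  rw [← ENNReal.ofReal_add (mul_nonneg hc (by linarith)) (mul_nonneg hc (by linarith))]
  refine ENNReal.ofReal_le_ofReal ?_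
  have u1 := L.up h k (l + 1) (j := 1) (Or.inl (by norm_num))
  have u2 := L.up h (k + 1) ((l + 1) * M (k + 1) + 1) (j := 14) (Or.inl le_rfl)
  have p0 := (L.ok h (k + 1) (l + 1)).pos
  have p1 := (L.ok h (k + 2 + 1) (sp k (l + 1))).pos
  have u3 : (U (k + 2 + 1) (sp k (l + 1))).τ ≤ 4000000 * (U (k + 1) (l + 1)).τ := by
    push_cast at u1 u2
    unfold sp; linarith
  have s1 := h.le_sv (k + 2 + 1) (sp k (l + 1))
  have s2 : (mN (k + 2 + 1) : ℝ) = 1000 * (k + 5) := by unfold mN; push_cast; ring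
  rw [s2] at s1
  have w : gam k * (7000 / (U (k + 1) (l + 1)).τ) ≤
      sv (η (k + 2 + 1) (sp k (l + 1))) / (2 * (U (k + 2 + 1) (sp k (l + 1))).τ) := by
    unfold gam
    have k0 : (0 : ℝ) < k + 5 := by positivity
    rw [div_mul_div_comm, div_le_div_iff₀ (by positivity) (by positivity)]
    clear i1 i2 a1 a2
    nlinarith [mul_le_mul_of_nonneg_right s1 p0.le]
  have w2 := (mul_le_mul_of_nonneg_left len (gam_pos k).le).trans (w.trans a3)
  clear i1 i2 a1 a2
  nlinarith [mul_le_mul_of_nonneg_left w2 hc]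

lemma Args.dens (h : Lab η) (L : Lay η U) (A : Args U a) {F : Set ℝ} (J k : ℕ)
    (hF : ∀ j, Disjoint F (Acc U (k + 4 * j))) :
    Dens F (BB a (4 * J) k) (1 + ∑ j ∈ range J, gam (k + 4 * j))⁻¹ := by
  induction J generalizing k with
  | zero =>
    intro l l' _
    simpa using (measure_mono Set.inter_subset_right).trans (le_of_eq Real.volume_Ioc)
  | succ J ih =>
    have S0 : 0 ≤ ∑ j ∈ range J, gam (k + 4 + 4 * j) := sum_nonneg fun _ _ => (gam_pos _).le
    have d1 := ih (k + 4) fun j => by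
      rw [show k + 4 + 4 * j = k + 4 * (j + 1) by ring]; exact hF _
    have d2 : Dens F (BB a (4 * J + 1) (k + 3)) (1 + ∑ j ∈ range J, gam (k + 4 + 4 * j))⁻¹ :=
      fun l l' hl => d1 _ _ (by nlinarith [M_pos (k + 3 + 1)])
    have d3 := A.kill h L (by positivity) (hF 0) d2
    intro l l' hl
    refine (d3 l l' hl).trans (ENNReal.ofReal_le_ofReal (mul_le_mul_of_nonneg_right ?_
      (sub_nonneg.2 (A.BB_mono _ _ hl))))
    rw [sum_range_succ']
    simp only [show ∀ j, k + 4 * (j + 1) = k + 4 + 4 * j from fun j => by ring, mul_zero, add_zero]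
    have g := gam_pos k
    rw [inv_mul_le_iff₀ (by positivity), ← div_eq_mul_inv, le_div_iff₀ (by positivity)]
    nlinarith [mul_nonneg S0 g.le, mul_pos g g]

lemma gam_tendsto (k : ℕ) :
    Tendsto (fun J => (1 + ∑ j ∈ range J, gam (k + 4 * j))⁻¹) atTop (𝓝 0) := by
  refine tendsto_inv_atTop_zero.comp (tendsto_atTop_add_const_left _ _ ?_)
  refine tendsto_atTop_mono (fun J => ?_) (Real.tendsto_sum_range_one_div_nat_succ_atTop.const_mul_atTop
    (gam_pos k))
  rw [mul_sum]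
  refine sum_le_sum fun j _ => ?_
  unfold gam
  have k0 : (0 : ℝ) ≤ k := Nat.cast_nonneg k
  have j0 : (0 : ℝ) ≤ j := Nat.cast_nonneg j
  rw [div_mul_div_comm, div_le_div_iff₀ (by positivity) (by positivity)]
  push_cast
  nlinarith [mul_nonneg k0 j0]

theorem Args.ae_acc (h : Lab η) (L : Lay η U) (A : Args U a) :
    ∀ᵐ t : ℝ, ∀ k, ∃ j, t ∈ Acc U (k + 4 * j) := by
  refine ae_all_iff.2 fun k => ?_
  rw [ae_iff]
  set F := {t : ℝ | ¬∃ j, t ∈ Acc U (k + 4 * j)}
  have hF : ∀ j, Disjoint F (Acc U (k + 4 * j)) := fun j =>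
    Set.disjoint_left.2 fun t ht ht' => ht ⟨j, ht'⟩
  have lin : ∀ q : ℤ, a k (q * nn (k + 1)) = a k 0 + q * (2 * π) := by
    intro q
    induction q using Int.induction_on with
    | zero => simp
    | succ q ih => rw [add_mul, one_mul, A.per, ih]; push_cast; ring
    | pred q ih =>
      have := A.per k ((-q - 1) * nn (k + 1))
      rw [show (-(q : ℤ) - 1) * nn (k + 1) + nn (k + 1) = -q * nn (k + 1) by ring, ih] at this
      push_cast at this ⊢; linarith
  have cl : ∀ n i, |BB a n k i - a k i| ≤ 1 := fun n i => (A.BB_close h L n k i).trans (by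
    have := L.tau_ge' h k i
    rw [div_le_one (by linarith)]; linarith)
  have hp := Real.pi_gt_three
  have key : ∀ q : ℕ, volume (F ∩ Set.Ioc (a k 0 - q * (2 * π) + 1) (a k 0 + q * (2 * π) - 1)) = 0 := by
    intro q
    have t1 : Tendsto (fun J => ENNReal.ofReal ((1 + ∑ j ∈ range J, gam (k + 4 * j))⁻¹ *
        (q * (4 * π) + 2))) atTop (𝓝 0) := by
      have := ENNReal.tendsto_ofReal ((gam_tendsto k).mul_const (q * (4 * π) + 2))
      simpa using this
    refine le_antisymm (ge_of_tendsto' t1 fun J => ?_) zero_le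
    have d := A.dens h L J k hF (-q * nn (k + 1)) (q * nn (k + 1)) (by nlinarith [nn_pos (k + 1)])
    have c1 := abs_le.1 (cl (4 * J) (-q * nn (k + 1)))
    have c2 := abs_le.1 (cl (4 * J) (q * nn (k + 1)))
    rw [lin] at c1 c2
    push_cast at c1 c2
    refine (measure_mono (Set.inter_subset_inter_right _ (Set.Ioc_subset_Ioc (by linarith)
      (by linarith)))).trans (d.trans (ENNReal.ofReal_le_ofReal (mul_le_mul_of_nonneg_left
        (by linarith) ?_)))
    have S0 : 0 ≤ ∑ j ∈ range J, gam (k + 4 * j) := sum_nonneg fun _ _ => (gam_pos _).le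
    positivity
  refine measure_mono_null (fun t ht => ?_) (measure_iUnion_null key)
  obtain ⟨q, hq⟩ := exists_nat_gt (|t - a k 0| + 1)
  have q0 : (0 : ℝ) ≤ q := Nat.cast_nonneg q
  exact Set.mem_iUnion.2 ⟨q, ht, by nlinarith [neg_abs_le (t - a k 0)],
    by nlinarith [le_abs_self (t - a k 0)]⟩

end Pool.Agent.P.MP_3555ad_an
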