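import Pool.Agent.P.MP_3555ad_an.Args
import Pool.Agent.P.MP_3555ad_an.Faces

set_option autoImplicit false

namespace Pool.Agent.P.MP_3555ad_an

open Real Finset Filter Topology Metric

/-- Euclidean data of a layout. -/
noncomputable def euc (U : ℕ → ℤ → Cir) (k : ℕ) (i : ℤ) : ℂ × ℝ := (cen (U k i), rad (U k i))

lemma Face.eface {a b c : Cir} (h : Face a b c) :
    EFace (cen a, rad a) (cen b, rad b) (cen c, rad c) :=
  ⟨(tang_iff h.oa h.ob).1 h.tab, (tang_iff h.ob h.oc).1 h.tbc, (tang_iff h.oc h.oa).1 h.tca,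
    h.ori_pos⟩

/-- The decay rate of the radii. -/
noncomputable def eps (k : ℕ) : ℝ := (250 * (3 / 2) ^ k)⁻¹

lemma eps_pos (k : ℕ) : 0 < eps k := by unfold eps; positivity
lemma eps_anti {k k' : ℕ} (h : k ≤ k') : eps k' ≤ eps k :=
  inv_anti₀ (by positivity) (mul_le_mul_of_nonneg_left (pow_le_pow_right₀ (by norm_num) h)
    (by norm_num))
lemma eps_tendsto : Tendsto eps atTop (𝓝 0) :=
  tendsto_inv_atTop_zero.comp
    ((tendsto_pow_atTop_atTop_of_one_lt (by norm_num)).const_mul_atTop (by norm_num))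
lemma eps_small {δ : ℝ} (h : 0 < δ) : ∃ K0, ∀ K ≥ K0, eps K < δ :=
  eventually_atTop.1 (eps_tendsto.eventually (gt_mem_nhds h))

/-- Centre of a vertex. -/
noncomputable def cV (U : ℕ → ℤ → Cir) (v : V) : ℂ := (lift (euc U) v).1
/-- Radius of a vertex. -/
noncomputable def rV (U : ℕ → ℤ → Cir) (v : V) : ℝ := (lift (euc U) v).2

variable {η : ℕ → ℤ → ℝ} {U : ℕ → ℤ → Cir} {a : ℕ → ℤ → ℝ}

lemma Lay.pack (h : Lab η) (L : Lay η U) : Pack (euc U) :=
  ⟨fun k i => by simp only [euc, L.per k i], fun k i => (L.ok h k i).rad_pos,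
    fun k l => (L.fan k l).eface, fun k i => (L.down k i).eface⟩

lemma cV_mk (h : Lab η) (L : Lay η U) (k : ℕ) (i : ℤ) : cV U (mk k i) = cen (U k i) := by
  rw [cV, lift_mk (L.pack h).per]; rfl
lemma rV_mk (h : Lab η) (L : Lay η U) (k : ℕ) (i : ℤ) : rV U (mk k i) = rad (U k i) := by
  rw [rV, lift_mk (L.pack h).per]; rfl

lemma Lay.rad_le (h : Lab η) (L : Lay η U) (k : ℕ) (i : ℤ) : rad (U (k + 1) i) ≤ eps k :=
  (L.ok h _ _).rad_le.trans (inv_anti₀ (by positivity) (L.tau_ge h k i))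

lemma Lay.cen_ge (h : Lab η) (L : Lay η U) (k : ℕ) (i : ℤ) :
    1 - 3 * rad (U k i) ≤ ‖cen (U k i)‖ := by
  have o := L.ok h k i
  have h1 := o.euc
  have h2 := o.inside
  have h3 := o.rad_pos
  have h4 := h.le k i
  rw [L.lab] at h1
  nlinarith [norm_nonneg (cen (U k i))]

lemma Lay.inside (h : Lab η) (L : Lay η U) (v : V) : ‖cV U v‖ + rV U v < 1 :=
  (L.ok h _ _).inside' (L.gt h _ _)

lemma Lay.rV_pos (h : Lab η) (L : Lay η U) (v : V) : 0 < rV U v := (L.ok h _ _).rad_pos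

lemma Lay.rV_le (h : Lab η) (L : Lay η U) {v : V} {k : ℕ} (hk : k + 1 ≤ v.1.1) :
    rV U v ≤ eps k := by
  obtain ⟨⟨k', i⟩, hv⟩ := v
  obtain ⟨k', rfl⟩ : ∃ k'', k' = k'' + 1 := ⟨k' - 1, by simp at hk; omega⟩
  exact (L.rad_le h k' i).trans (eps_anti (by simp at hk; omega))

lemma Lay.far_tri (h : Lab η) (L : Lay η U) {x y z : V} (hF : FF x y z) {k : ℕ}
    (hx : k + 1 ≤ x.1.1) (hy : k + 1 ≤ y.1.1) (hz : k + 1 ≤ z.1.1) {q : ℂ}
    (hq : q ∈ Tri (cV U x) (cV U y) (cV U z)) : 1 - 5 * eps k ≤ ‖q‖ := by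
  have E := (L.pack h).face hF
  have r1 := L.rV_le h hx
  have r2 := L.rV_le h hy
  have r3 := L.rV_le h hz
  have e0 := eps_pos k
  have := Tri_subset_convex E.pos (convex_closedBall (cV U x) (2 * eps k))
    (mem_closedBall_self (by linarith))
    (by rw [mem_closedBall, dist_eq_norm, norm_sub_rev]; exact E.t1.le.trans (by
      simp only [rV] at r1 r2; linarith))
    (by rw [mem_closedBall, dist_eq_norm]; exact E.t3.le.trans (by
      simp only [rV] at r1 r3; linarith)) hq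
  rw [mem_closedBall, dist_eq_norm] at this
  have h2 : 1 - 3 * rV U x ≤ ‖cV U x‖ := L.cen_ge h _ _
  have h3 := norm_sub_norm_le (cV U x) q
  rw [norm_sub_rev] at h3
  linarith

lemma Lay.tri_ball (h : Lab η) (L : Lay η U) {x y z : V} (hF : FF x y z) :
    Tri (cV U x) (cV U y) (cV U z) ⊆ ball 0 1 := by
  have : ∀ v, cV U v ∈ ball (0 : ℂ) 1 := fun v => by
    rw [mem_ball_zero_iff]; linarith [L.inside h v, L.rV_pos h v]
  exact Tri_subset_convex ((L.pack h).face hF).pos (convex_ball 0 1) (this _) (this _) (this _)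

lemma Lay.ring_seg (L : Lay η U) (k : ℕ) (i : ℤ) {q : ℂ}
    (hq : q ∈ segment ℝ (cen (U (k + 1) i)) (cen (U (k + 1) (i + 1)))) :
    ∃ i', ‖q - cen (U (k + 1) i')‖ ≤ rad (U (k + 1) i') := by
  have h1 := (L.fan k i).eface.t2
  have h2 := dist_add_dist_of_mem_segment hq
  rw [dist_eq_norm, dist_eq_norm, dist_eq_norm, h1, norm_sub_rev] at h2
  by_cases h3 : ‖q - cen (U (k + 1) i)‖ ≤ rad (U (k + 1) i)
  · exact ⟨i, h3⟩
  · exact ⟨i + 1, by simp only at h2; linarith⟩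

lemma Args.small (h : Lab η) (L : Lay η U) (A : Args U a) (k : ℕ) (i : ℤ) :
    a k (i + 1) - a k i ≤ 1 / 70 :=
  (abs_le.1 (small_of_close (A.step k i) (L.tau_ge' h _ _) (L.tau_ge' h _ _))).2

lemma Args.pol_cen (h : Lab η) (L : Lay η U) (A : Args U a) (k : ℕ) (i : ℤ) :
    cen (U (k + 1) i) = ‖cen (U (k + 1) i)‖ • ex (a k i) := by
  rw [(L.ok h _ _).norm_cen, mul_comm, mul_smul, ← A.pol]; rfl

lemma Args.ring0 (h : Lab η) (L : Lay η U) (A : Args U a) (k : ℕ) {d : ℂ} (hd : d ≠ 0) :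
    ringS (fun x y => cr 0 d (cV U x) (cV U y)) (k + 1) = 1 := by
  simp only [ringS, cV_mk h L]
  refine wind (z := fun i => cen (U (k + 1) i)) (φ := a k) (fun i h0 => ?_) (A.pol_cen h L k)
    (A.lt k) (fun i => by linarith [A.small h L k i, Real.pi_gt_three]) ?_ hd
  · have h1 := L.cen_ge h (k + 1) i
    have h2 := (L.rad_le h k i).trans (eps_anti (Nat.zero_le k))
    rw [h0, norm_zero] at h1
    norm_num [eps] at h2
    linarith
  · rw [NN_cast, ← A.per, zero_add]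

lemma Args.ringp (h : Lab η) (L : Lay η U) (A : Args U a) {p : ℂ} (hp : ‖p‖ < 1) :
    ∃ d ≠ 0, ∃ K0, ∀ K ≥ K0, ringS (fun x y => cr p d (cV U x) (cV U y)) (K + 1) = 1 := by
  by_cases h0 : p = 0
  · exact ⟨1, one_ne_zero, 0, fun K _ => by rw [h0]; exact A.ring0 h L K one_ne_zero⟩
  obtain ⟨K0, hK⟩ := eps_small (δ := (1 - ‖p‖) / 4) (by linarith)
  refine ⟨p, h0, K0, fun K hK' => ?_⟩
  rw [← A.ring0 h L K h0]
  simp only [ringS, cV_mk h L]
  refine sum_congr rfl fun i _ => ?_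
  have := cr_move (s := 1) h0 zero_le_one (a := cen (U (K + 1) i)) (b := cen (U (K + 1) (i + 1)))
    (fun q hq => by
      obtain ⟨i', h1⟩ := L.ring_seg K i hq
      have h2 := L.cen_ge h (K + 1) i'
      have h3 := L.rad_le h K i'
      have h4 := norm_sub_norm_le (cen (U (K + 1) i')) q
      rw [norm_sub_rev] at h4
      linarith [hK K hK'])
  rwa [one_smul] at this

lemma triS_cr (p d : ℂ) (c : V → ℂ) (x : Ix) : triS (fun x y => cr p d (c x) (c y)) x =
    crT p d (c (tri x).1) (c (tri x).2.1) (c (tri x).2.2) := rfl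

lemma Args.mesh (h : Lab η) (L : Lay η U) (A : Args U a) : Mesh (cV U) FF where
  pos hF := ((L.pack h).face hF).pos
  rot := FF.rot
  edge := FF.edge
  flower := flower
  disj := by
    classical
    intro x y z x' y' z' hF hF' q hq hq'
    obtain ⟨d, hd, K0, hK⟩ := A.ringp h L (mem_ball_zero_iff.1 (L.tri_ball h hF (OTri.tri hq)))
    obtain ⟨i, i1, k, i2, -⟩ := hF.exists_ix
    obtain ⟨i', i1', k', i2', -⟩ := hF'.exists_ix
    have spec := fun x => crT_spec (p := q) hd ((L.pack h).face (tri_FF x)).pos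
    have one : ∀ {i : Ix} {x y z : V}, (tri i = (x, y, z) ∨ tri i = (y, z, x) ∨ tri i = (z, x, y)) →
        q ∈ OTri (cV U x) (cV U y) (cV U z) →
        1 ≤ triS (fun x y => cr q d (cV U x) (cV U y)) i ∧
          ({x, y, z} : Set V) = {(tri i).1, (tri i).2.1, (tri i).2.2} := by
      intro i x y z hi hq
      refine ⟨(spec i).2.2 ?_, ?_⟩
      · rcases hi with hi | hi | hi <;> rw [hi]
        · exact hq
        · exact OTri.rot hq
        · exact OTri.rot (OTri.rot hq)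
      · rcases hi with hi | hi | hi <;> rw [hi] <;> ext w <;> simp <;> tauto
    rw [(one i1 hq).2, (one i1' hq').2]
    by_cases hne : i = i'
    · rw [hne]
    · exfalso
      have h1 := Finset.add_le_sum (s := SS (K0 + k + k' + 1))
        (f := triS fun x y => cr q d (cV U x) (cV U y)) (fun x _ => (spec x).1)
        (i2 _ (by omega)) (i2' _ (by omega)) hne
      rw [total_sum (fun _ _ => cr_swap _ _ _ _), hK _ (by omega)] at h1
      linarith [(one i1 hq).1, (one i1' hq').1]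

lemma Args.cover (h : Lab η) (L : Lay η U) (A : Args U a) {p : ℂ} (hp : ‖p‖ < 1) :
    ∃ x y z, FF x y z ∧ p ∈ Tri (cV U x) (cV U y) (cV U z) := by
  obtain ⟨d, hd, K0, hK⟩ := A.ringp h L hp
  have h1 := hK K0 le_rfl
  rw [← total_sum (fun _ _ => cr_swap _ _ _ _)] at h1
  obtain ⟨x, -, hx⟩ := exists_ne_zero_of_sum_ne_zero (h1.trans_ne one_ne_zero)
  exact ⟨_, _, _, tri_FF x, (crT_spec hd ((L.pack h).face (tri_FF x)).pos).2.1 hx⟩

lemma Args.space (h : Lab η) (L : Lay η U) (A : Args U a) :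
    (A.mesh h L).complex.space = ball 0 1 := by
  ext p
  rw [Mesh.mem_space]
  exact ⟨fun ⟨x, y, z, hF, hp⟩ => L.tri_ball h hF hp,
    fun hp => A.cover h L (mem_ball_zero_iff.1 hp)⟩

lemma Args.finite (h : Lab η) (L : Lay η U) (A : Args U a) {ρ : ℝ} (hρ : ρ < 1) :
    {s ∈ (A.mesh h L).complex.faces |
      (convexHull ℝ (s : Set ℂ) ∩ closedBall 0 ρ).Nonempty}.Finite := by
  classical
  obtain ⟨K0, hK⟩ := eps_small (δ := (1 - ρ) / 5) (by linarith)
  refine ((SS (K0 + 1)).biUnion fun x =>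
    ({cV U (tri x).1, cV U (tri x).2.1, cV U (tri x).2.2} : Finset ℂ).powerset).finite_toSet.subset ?_
  rintro s ⟨⟨-, x, y, z, hF, hs⟩, q, hq1, hq2⟩
  obtain ⟨i, i1, k, i2, k1, k2, k3⟩ := hF.exists_ix
  have hq : q ∈ Tri (cV U x) (cV U y) (cV U z) := by
    rw [← convexHull_eq_Tri ((A.mesh h L).pos hF)]; exact convexHull_mono hs hq1
  have hk : k < K0 + 1 := by
    by_contra hn
    have := L.far_tri h hF (k := K0) (by omega) (by omega) (by omega) hq
    rw [mem_closedBall_zero_iff] at hq2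
    linarith [hK K0 le_rfl]
  simp only [coe_biUnion, Set.mem_iUnion, mem_coe, mem_powerset]
  refine ⟨i, i2 _ hk, fun w hw => ?_⟩
  have := hs hw
  rcases i1 with hi | hi | hi <;> rw [hi] <;> simp at this ⊢ <;> tauto

/-- Every boundary point is close to some circle of each ring. -/
lemma Args.near (h : Lab η) (L : Lay η U) (A : Args U a) (k : ℕ) {ζ : ℂ} (hζ : ‖ζ‖ = 1) :
    ∃ i, ‖ζ - cen (U (k + 1) i)‖ ≤ 5 * rad (U (k + 1) i) := by
  have hd : ζ ≠ 0 := by rintro rfl; simp at hζ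
  have h1 := A.ring0 h L k hd
  simp only [ringS, cV_mk h L] at h1
  obtain ⟨i, -, hi⟩ : ∃ i ∈ range (NN (k + 1)),
      0 < cr 0 ζ (cen (U (k + 1) i)) (cen (U (k + 1) (i + 1))) := by
    by_contra hn
    push Not at hn
    have := sum_nonpos hn
    omega
  obtain ⟨t, t0, ht⟩ := exists_cross_of_cr hd hi
  obtain ⟨i', h2⟩ := L.ring_seg k i ht
  refine ⟨i', ?_⟩
  have h3 := L.cen_ge h (k + 1) i'
  have h4 := (L.ok h (k + 1) i').inside
  have h5 : ‖t • ζ‖ = t := by rw [norm_smul, hζ, Real.norm_eq_abs, abs_of_pos t0, mul_one]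
  have h6 := norm_sub_norm_le (cen (U (k + 1) i')) (t • ζ)
  have h7 := norm_sub_norm_le (t • ζ) (cen (U (k + 1) i'))
  rw [norm_sub_rev] at h6
  have h8 : ‖ζ - t • ζ‖ = 1 - t := by
    rw [show ζ - t • ζ = (1 - t) • ζ by module, norm_smul, hζ, Real.norm_eq_abs,
      abs_of_nonneg (by linarith), mul_one]
  linarith [norm_sub_le_norm_sub_add_norm_sub ζ (t • ζ) (cen (U (k + 1) i'))]

end Pool.Agent.P.MP_3555ad_an
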